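import Pool.Agent.KS6_33.LE.LF

/-! # Lenstra's density when `n` is a perfect power only for few large exponents -/

set_option autoImplicit false

namespace Pool.Agent.KS6_33.PG

open Finset Filter Topology NumberField IntermediateField Pool.Agent.KS6_33.LE
open Pool.Agent.H981R3.LN (ql Sk mem_Sk Sk_dvd Sk_prime Qn Qn_dvd Qn_pos)
open Pool.Agent.W171.LG
open Pool.Agent.W401.Cheb
open Pool.Agent.H730R2.AA.Euler (mu_eq_prod summable_bound sqrt_le_totient)

/-- few exponents -/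
lemma few_exp2 (n : ℤ) (hn : n ≠ 0) (H : ℕ) (hn1 : n.natAbs ≠ 1) (hH : n.natAbs < 2 ^ (2 ^ H)) :
    ∃ m : ℕ, m ≠ 0 ∧ Squarefree m ∧ m.primeFactors.card ≤ H ∧
      (∀ l : ℕ, l.Prime → (∃ c : ℚ, c ^ l = (n : ℚ)) → l ∣ m) ∧
      (∀ l : ℕ, l.Prime → l ∣ m → ∃ y : ℤ, n = y ^ l) := by
  classical
  have hn0 : n.natAbs ≠ 0 := Int.natAbs_ne_zero.2 hn
  obtain ⟨p, hpdef⟩ : ∃ p : ℕ, p = n.natAbs.minFac := ⟨_, rfl⟩
  have hp : p.Prime := by rw [hpdef]; exact Nat.minFac_prime hn1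
  have hpn : p ∣ n.natAbs := by rw [hpdef]; exact Nat.minFac_dvd _
  obtain ⟨v, hv⟩ : ∃ v : ℕ, v = n.natAbs.factorization p := ⟨_, rfl⟩
  have hv0 : v ≠ 0 := by
    rw [hv]
    have := (hp.dvd_iff_one_le_factorization hn0).1 hpn
    omega
  have hdv : ∀ l : ℕ, l ≠ 0 → (∃ c : ℚ, c ^ l = (n : ℚ)) → l ∣ v := by
    rintro l hl ⟨c, hc⟩
    obtain ⟨y, hy⟩ := root_int n l hl c hc
    rw [hv, hy, Int.natAbs_pow, Nat.factorization_pow]
    exact Dvd.intro _ rfl
  obtain ⟨P, hP⟩ : ∃ P : Finset ℕ, P = v.primeFactors.filter (fun l => ∃ c : ℚ, c ^ l = (n : ℚ)) := ⟨_, rfl⟩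
  have hPp : ∀ l ∈ P, l.Prime := by
    intro l hl
    rw [hP, mem_filter] at hl
    exact Nat.prime_of_mem_primeFactors hl.1
  obtain ⟨m, hm⟩ : ∃ m : ℕ, m = ∏ l ∈ P, l := ⟨_, rfl⟩
  have hmf : m.primeFactors = P := by rw [hm]; exact Nat.primeFactors_prod hPp
  have hm0 : m ≠ 0 := by
    rw [hm]
    exact prod_ne_zero_iff.2 fun l hl => (hPp l hl).ne_zero
  have hsq : Squarefree m := by rw [hm]; exact Pool.Agent.H771R4.AQ.sqf_prod P hPp
  have hmv : m ∣ v := by
    have h1 : P ⊆ v.primeFactors := by rw [hP]; exact filter_subset _ _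
    rw [hm]
    exact (prod_dvd_prod_of_subset _ _ _ h1).trans (Nat.prod_primeFactors_dvd v)
  have hmlt : m < 2 ^ H := by
    have h1 : m ≤ v := Nat.le_of_dvd (Nat.pos_of_ne_zero hv0) hmv
    have h2 : p ^ v ≤ n.natAbs := by
      rw [hv]
      exact Nat.le_of_dvd (Nat.pos_of_ne_zero hn0) (Nat.ordProj_dvd n.natAbs p)
    have h3 : 2 ^ v ≤ p ^ v := Nat.pow_le_pow_left hp.two_le v
    have h4 : 2 ^ v < 2 ^ (2 ^ H) := by omega
    have h5 := (Nat.pow_lt_pow_iff_right (by norm_num : 1 < 2)).1 h4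
    omega
  refine ⟨m, hm0, hsq, ?_, ?_, ?_⟩
  · rw [hmf]
    have h1 : 2 ^ P.card ≤ m := by
      rw [hm, ← prod_const]
      exact prod_le_prod' fun l hl => (hPp l hl).two_le
    exact ((Nat.pow_lt_pow_iff_right (by norm_num : 1 < 2)).1 (h1.trans_lt hmlt)).le
  · intro l hl hc
    have h1 : l ∈ P := by
      rw [hP, mem_filter, Nat.mem_primeFactors]
      exact ⟨⟨hl, hdv l hl.ne_zero hc, hv0⟩, hc⟩
    rw [hm]
    exact dvd_prod_of_mem _ h1
  · intro l hl hlm
    have h1 : l ∈ P := by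
      rw [← hmf]
      exact Nat.mem_primeFactors.2 ⟨hl, hlm, hm0⟩
    rw [hP, mem_filter] at h1
    obtain ⟨c, hc⟩ := h1.2
    exact root_int n l hl.ne_zero c hc

/-- the sum over the divisors of a squarefree number -/
lemma div_sum (m : ℕ) (hsq : Squarefree m) :
    ∑ h ∈ m.divisors.erase 1, 1 / Real.sqrt h ≤
      Real.exp (∑ l ∈ m.primeFactors, 1 / Real.sqrt l) - 1 := by
  classical
  have hm0 : m ≠ 0 := hsq.ne_zero
  have h1 : ∑ h ∈ m.divisors, 1 / Real.sqrt h ≤ ∏ l ∈ m.primeFactors, (1 + 1 / Real.sqrt l) := by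
    rw [prod_one_add]
    have h2 : ∀ h ∈ m.divisors, 1 / Real.sqrt h = ∏ l ∈ h.primeFactors, 1 / Real.sqrt l := by
      intro h hh
      have hd := (Nat.mem_divisors.1 hh).1
      have h3 := Nat.prod_primeFactors_of_squarefree (hsq.squarefree_of_dvd hd)
      rw [prod_div_distrib, prod_const_one]
      congr 1
      conv_lhs => rw [← h3]
      rw [Nat.cast_prod, Real.sqrt_prod]
      intro i _
      exact Nat.cast_nonneg i
    rw [sum_congr rfl h2, ← sum_image (s := m.divisors) (g := fun h => h.primeFactors)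
      (f := fun t : Finset ℕ => ∏ l ∈ t, 1 / Real.sqrt (l : ℝ))]
    · apply sum_le_sum_of_subset_of_nonneg
      · intro t ht
        rw [mem_image] at ht
        obtain ⟨h, hh, rfl⟩ := ht
        rw [mem_powerset]
        exact Nat.primeFactors_mono (Nat.mem_divisors.1 hh).1 hm0
      · intro t _ _
        exact prod_nonneg fun l _ => by positivity
    · intro d hd d' hd' hdd
      have h2 := (Nat.mem_divisors.1 (mem_coe.1 hd)).1
      have h2' := (Nat.mem_divisors.1 (mem_coe.1 hd')).1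
      have h3 := Nat.prod_primeFactors_of_squarefree (hsq.squarefree_of_dvd h2)
      have h3' := Nat.prod_primeFactors_of_squarefree (hsq.squarefree_of_dvd h2')
      dsimp only at hdd
      rw [← h3, ← h3', hdd]
  have h3 : ∏ l ∈ m.primeFactors, (1 + 1 / Real.sqrt l) ≤ Real.exp (∑ l ∈ m.primeFactors, 1 / Real.sqrt l) := by
    rw [Real.exp_sum]
    apply Finset.prod_le_prod
    · intro l _
      positivity
    · intro l _
      rw [add_comm]
      exact Real.add_one_le_exp _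
  have h4 : ∑ h ∈ m.divisors, 1 / Real.sqrt h = 1 / Real.sqrt ((1 : ℕ) : ℝ) + ∑ h ∈ m.divisors.erase 1, 1 / Real.sqrt h :=
    (add_sum_erase _ _ (Nat.one_mem_divisors.2 hm0)).symm
  rw [Nat.cast_one, Real.sqrt_one, div_one] at h4
  linarith

section

variable (F : IntermediateField ℚ QA) [NumberField F] [IsGalois ℚ F] (C : Set Gal(F/ℚ)) {W0 : Subgroup ℚˣ}
  (k : ℕ)

/-- **Lenstra's density for integers which are not in finitely many classes of powers** -/
theorem close_gen (hW0 : W0.FG) (ε : ℝ) (hε : 0 < ε) : ∃ (z B : ℕ) (η : ℝ), 0 < η ∧ ∀ (n : ℤ) (m : ℕ), n ≠ 0 →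
    (∀ l : ℕ, l.Prime → l ≤ z → ∀ g : ℤ, g ≠ 0 → g.natAbs ≤ B → ∀ y : ℤ, n ≠ g * y ^ l) →
    m ≠ 0 → (∀ l : ℕ, l.Prime → (∃ c : ℚ, c ^ l = (n : ℚ)) → l ∣ m) →
    (∑ h ∈ m.divisors.erase 1, 1 / Real.sqrt h ≤ η) →
    |(∑' e : ℕ, tW F C (W0 ⊔ Subgroup.zpowers (Uz n)) k e) - ∑' e : ℕ, aT F C W0 k e| ≤ ε := by
  classical
  obtain ⟨c, hc⟩ : ∃ c : ℝ, c = (Nat.card Gal(F/ℚ) : ℝ) := ⟨_, rfl⟩
  have hc0 : 0 ≤ c := by rw [hc]; exact Nat.cast_nonneg _
  obtain ⟨q, hq⟩ : ∃ q : ℕ → ℝ, q = fun e : ℕ => 2 * (1 / (e : ℝ) ^ (3 / 2 : ℝ)) := ⟨_, rfl⟩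
  have hqs : Summable q := by rw [hq]; exact summable_bound
  have hq0 : ∀ e, 0 ≤ q e := fun e => by rw [hq]; positivity
  obtain ⟨S, hS⟩ : ∃ S : ℝ, S = ∑' e, q e := ⟨_, rfl⟩
  have hS0 : 0 ≤ S := by rw [hS]; exact tsum_nonneg hq0
  have hfs : Summable (fun e => 3 * c * q e) := hqs.mul_left _
  have htail : Tendsto (fun z : ℕ => ∑' e : ℕ, 3 * c * q (e + z)) atTop (𝓝 0) :=
    tendsto_sum_nat_add (fun e => 3 * c * q e)
  obtain ⟨z, hz⟩ := ((Metric.tendsto_atTop.1 htail) (ε / 2) (by positivity))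
  have hz' := hz z le_rfl
  rw [Real.dist_eq, sub_zero] at hz'
  -- the classes
  have hcls : ∀ e : ℕ, ∃ B : ℕ, ∀ r : ℕ, r.Prime → r ≤ z → ∀ n : ℤ, n ≠ 0 → ∀ b : QA,
      b ∈ F ⊔ Lf QA W0 (Qn k e) → b ^ r = algebraMap ℚ QA (n : ℚ) →
      ∃ g y : ℤ, n = g * y ^ r ∧ g ≠ 0 ∧ g.natAbs ≤ B := by
    intro e
    have hfin := supF_fin F hW0 (Qn_pos k e)
    have hN : NumberField (F ⊔ Lf QA W0 (Qn k e) : IntermediateField ℚ QA) :=
      { to_charZero := inferInstance, to_finiteDimensional := hfin }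
    refine ⟨(discr (F ⊔ Lf QA W0 (Qn k e) : IntermediateField ℚ QA)).natAbs ^ z,
      fun r hr hrz n hn b hb h => ?_⟩
    obtain ⟨g, y, h1, h2, h3⟩ := field_cls _ r hr n hn b hb h
    refine ⟨g, y, h1, h2, h3.trans (Nat.pow_le_pow_right ?_ hrz)⟩
    exact Int.natAbs_pos.2 (discr_ne_zero _)
  choose B hB using hcls
  refine ⟨z, (Finset.range z).sup B, ε / (4 * c * S + 1), by positivity, fun n m hn hcl hm0 hm1 hη => ?_⟩
  obtain ⟨W, hWdef⟩ : ∃ W : Subgroup ℚˣ, W = W0 ⊔ Subgroup.zpowers (Uz n) := ⟨_, rfl⟩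
  rw [← hWdef]
  have hWfg : W.FG := by rw [hWdef]; exact hW0.sup ⟨{Uz n}, by simp [Subgroup.zpowers_eq_closure]⟩
  have hu : Uz n ∈ W := by rw [hWdef]; exact Subgroup.mem_sup_right (Subgroup.mem_zpowers _)
  have hb : ∀ e, ‖tW F C W k e‖ ≤ 2 * c * ((Nat.gcd e m : ℝ) * q e) := by
    intro e
    have := tW_bound2 F C k hWfg hu hm0 (fun s hs hsm c hc => hsm (hm1 s hs ⟨c, by rw [hc, Uz_val hn]⟩)) e
    rw [hc, hq]
    exact this
  have ha : ∀ e, ‖aT F C W0 k e‖ ≤ c * q e := by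
    intro e
    rw [hc, hq]
    exact aT_bound F C k hW0 e
  -- the majorant
  obtain ⟨f1, hf1⟩ : ∃ f1 : ℕ → ℝ, f1 = fun e : ℕ => if e < z then 0 else 3 * c * q e := ⟨_, rfl⟩
  obtain ⟨f2, hf2⟩ : ∃ f2 : ℕ → ℕ → ℝ, f2 = fun h e : ℕ => if h ∣ e then (h : ℝ) * q e else 0 := ⟨_, rfl⟩
  have hf1s : Summable f1 := by
    refine Summable.of_nonneg_of_le (fun e => ?_) (fun e => ?_) hfs
    · rw [hf1]
      beta_reduce
      split_ifs
      · exact le_rfl
      · have := hq0 e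
        positivity
    · rw [hf1]
      beta_reduce
      have := hq0 e
      split_ifs
      · positivity
      · exact le_rfl
  have hf1t : ∑' e, f1 e ≤ ε / 2 := by
    rw [← hf1s.sum_add_tsum_nat_add z, Finset.sum_eq_zero, zero_add]
    · have : (fun i => f1 (i + z)) = fun e => 3 * c * q (e + z) := by
        funext i
        rw [hf1]
        beta_reduce
        rw [if_neg (by omega)]
      rw [this]
      exact (le_abs_self _).trans hz'.le
    · intro i hi
      rw [hf1]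
      beta_reduce
      rw [if_pos (Finset.mem_range.1 hi)]
  have hf2s : ∀ h ∈ m.divisors.erase 1, HasSum (f2 h) (1 / Real.sqrt h * S) := by
    intro h hh
    have hh1 : 0 < h := Nat.pos_of_mem_divisors (mem_of_mem_erase hh)
    have := mult_sum h hh1
    rw [hf2, hS, hq]
    exact this
  have hmaj : HasSum (fun e => f1 e + ∑ h ∈ m.divisors.erase 1, 2 * c * f2 h e)
      ((∑' e, f1 e) + ∑ h ∈ m.divisors.erase 1, 2 * c * (1 / Real.sqrt h * S)) :=
    hf1s.hasSum.add (hasSum_sum fun h hh => (hf2s h hh).mul_left _)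
  have hle : ∀ e, ‖tW F C W k e - aT F C W0 k e‖ ≤ f1 e + ∑ h ∈ m.divisors.erase 1, 2 * c * f2 h e := by
    intro e
    have hf2n : ∀ h ∈ m.divisors.erase 1, 0 ≤ 2 * c * f2 h e := by
      intro h _
      rw [hf2]
      beta_reduce
      have := hq0 e
      split_ifs <;> positivity
    have hs0 : 0 ≤ ∑ h ∈ m.divisors.erase 1, 2 * c * f2 h e := sum_nonneg hf2n
    by_cases he : e < z
    · have h1 : tW F C W k e = aT F C W0 k e := by
        rw [hWdef]
        apply tW_eq2 F C k hW0 hn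
        intro r hr hrQ b hb' hbr
        have hre : r ∣ e ∧ e ≠ 0 := by
          unfold Qn at hrQ
          rw [hr.prime.dvd_finsetProd_iff] at hrQ
          obtain ⟨l, hl, hrl⟩ := hrQ
          have hlp := Nat.prime_of_mem_primeFactors hl
          unfold ql at hrl
          have h1 : r = l := (Nat.prime_dvd_prime_iff_eq hr hlp).1 (hr.dvd_of_dvd_pow hrl)
          rw [h1]
          exact ⟨Nat.dvd_of_mem_primeFactors hl, (Nat.mem_primeFactors.1 hl).2.2⟩
        have hrz : r ≤ z := (Nat.le_of_dvd (Nat.pos_of_ne_zero hre.2) hre.1).trans he.le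
        obtain ⟨g, y, h1, h2, h3⟩ := hB e r hr hrz n hn b hb' hbr
        exact hcl r hr hrz g h2 (h3.trans (Finset.le_sup (f := B) (Finset.mem_range.2 he))) y h1
      rw [h1, sub_self, norm_zero, hf1]
      beta_reduce
      rw [if_pos he, zero_add]
      exact hs0
    · have h1 : (Nat.gcd e m : ℝ) * q e ≤ q e + ∑ h ∈ m.divisors.erase 1, f2 h e := by
        have hs1 : ∀ h ∈ m.divisors.erase 1, 0 ≤ f2 h e := by
          intro h _
          rw [hf2]
          beta_reduce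
          have := hq0 e
          split_ifs <;> positivity
        by_cases hg : Nat.gcd e m = 1
        · rw [hg, Nat.cast_one, one_mul]
          have := sum_nonneg hs1
          linarith
        · have h2 : Nat.gcd e m ∈ m.divisors.erase 1 :=
            mem_erase.2 ⟨hg, Nat.mem_divisors.2 ⟨Nat.gcd_dvd_right _ _, hm0⟩⟩
          have h3 := single_le_sum hs1 h2
          have h4 : f2 (Nat.gcd e m) e = (Nat.gcd e m : ℝ) * q e := by
            rw [hf2]
            beta_reduce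
            rw [if_pos (Nat.gcd_dvd_left _ _)]
          rw [h4] at h3
          have := hq0 e
          linarith
      have h5 := hb e
      have h6 := ha e
      have h7 := norm_sub_le (tW F C W k e) (aT F C W0 k e)
      have h8 := mul_le_mul_of_nonneg_left h1 (by positivity : 0 ≤ 2 * c)
      rw [mul_add, mul_sum] at h8
      have h9 : f1 e = 3 * c * q e := by
        rw [hf1]
        beta_reduce
        rw [if_neg he]
      rw [h9]
      linarith
  have hts : Summable (tW F C W k) := by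
    have h1 : Summable (fun e => (f1 e + ∑ h ∈ m.divisors.erase 1, 2 * c * f2 h e) + ‖aT F C W0 k e‖) :=
      hmaj.summable.add (aT_summable F C k hW0).norm
    refine Summable.of_norm_bounded h1 fun e => ?_
    have h2 := hle e
    have h3 : tW F C W k e = (tW F C W k e - aT F C W0 k e) + aT F C W0 k e := by ring
    calc ‖tW F C W k e‖ = ‖(tW F C W k e - aT F C W0 k e) + aT F C W0 k e‖ := by rw [← h3]
      _ ≤ _ := (norm_add_le _ _).trans (add_le_add h2 le_rfl)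
  have has := aT_summable F C k hW0
  rw [← hts.tsum_sub has, ← Real.norm_eq_abs]
  refine (tsum_of_norm_bounded hmaj hle).trans ?_
  have hsum2 : ∑ h ∈ m.divisors.erase 1, 2 * c * (1 / Real.sqrt h * S) ≤ ε / 2 := by
    have e1 : ∑ h ∈ m.divisors.erase 1, 2 * c * (1 / Real.sqrt h * S) =
        2 * c * S * ∑ h ∈ m.divisors.erase 1, 1 / Real.sqrt h := by
      rw [mul_sum]
      exact sum_congr rfl fun h _ => by ring
    rw [e1]
    have h1 : 0 ≤ 2 * c * S := by positivity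
    have h2 := mul_le_mul_of_nonneg_left hη h1
    refine h2.trans ?_
    rw [← mul_div_assoc, div_le_iff₀ (by positivity)]
    nlinarith [mul_nonneg hc0 hS0]
  linarith

/-- the version used for the powers -/
theorem close3 (hW0 : W0.FG) (ε : ℝ) (hε : 0 < ε) : ∃ z B Y₀ : ℕ, ∀ (n : ℤ) (Y H q₁ : ℕ), n ≠ 0 → Y₀ ≤ Y →
    Y₀ ≤ q₁ → H ^ 3 ≤ Y →
    (∀ l : ℕ, l.Prime → l ≤ z → ∀ g : ℤ, g ≠ 0 → g.natAbs ≤ B → ∀ y : ℤ, n ≠ g * y ^ l) →
    (∀ l : ℕ, l.Prime → l ≤ Y → l ≠ q₁ → ∀ y : ℤ, n ≠ y ^ l) → n.natAbs < 2 ^ (2 ^ H) → n.natAbs ≠ 1 →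
    |(∑' e : ℕ, tW F C (W0 ⊔ Subgroup.zpowers (Uz n)) k e) - ∑' e : ℕ, aT F C W0 k e| ≤ ε := by
  classical
  obtain ⟨z, B, η, hη, h⟩ := close_gen F C k hW0 ε hε
  -- choose `Y₀`
  have hlim : Tendsto (fun Y : ℕ => 1 / Real.sqrt Y + 1 / (Y : ℝ) ^ (1 / 6 : ℝ)) atTop (𝓝 (0 + 0)) := by
    apply Tendsto.add
    · have h1 : Tendsto (fun Y : ℕ => Real.sqrt Y) atTop atTop :=
        Real.tendsto_sqrt_atTop.comp tendsto_natCast_atTop_atTop
      refine h1.inv_tendsto_atTop.congr fun Y => ?_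
      rw [Pi.inv_apply, one_div]
    · have h1 : Tendsto (fun Y : ℕ => (Y : ℝ) ^ (1 / 6 : ℝ)) atTop atTop :=
        (tendsto_rpow_atTop (by norm_num)).comp tendsto_natCast_atTop_atTop
      refine h1.inv_tendsto_atTop.congr fun Y => ?_
      rw [Pi.inv_apply]
      simp only [one_div]
  rw [add_zero] at hlim
  obtain ⟨η', hη'⟩ : ∃ η' : ℝ, η' = min 1 (η / 2) := ⟨_, rfl⟩
  have hη'0 : 0 < η' := by rw [hη']; exact lt_min one_pos (by positivity)
  obtain ⟨Y₀, hY₀⟩ := eventually_atTop.1 (hlim.eventually (gt_mem_nhds hη'0))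
  refine ⟨z, B, Y₀ + 1, fun n Y H q₁ hn hY hq₁ hHY hcl hpw hlt hn1 => ?_⟩
  obtain ⟨m, hm0, hmsq, hmcard, hm1, hm2⟩ := few_exp2 n hn H hn1 hlt
  refine h n m hn hcl hm0 hm1 ((div_sum m hmsq).trans ?_)
  have hsum : ∑ l ∈ m.primeFactors, 1 / Real.sqrt l ≤ η' := by
    have hY1 : (1 : ℝ) ≤ Y := by exact_mod_cast (by omega : 1 ≤ Y)
    have hYpos : (0 : ℝ) < Y := by linarith
    have hterm : ∀ l ∈ m.primeFactors, 1 / Real.sqrt l ≤ (if l = q₁ then 1 / Real.sqrt q₁ else 0) +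
        1 / Real.sqrt Y := by
      intro l hl
      have hlp := Nat.prime_of_mem_primeFactors hl
      obtain ⟨y, hy⟩ := hm2 l hlp (Nat.dvd_of_mem_primeFactors hl)
      by_cases hlq : l = q₁
      · rw [if_pos hlq, hlq]
        have : 0 ≤ 1 / Real.sqrt (Y : ℝ) := by positivity
        linarith
      · rw [if_neg hlq, zero_add]
        have hYl : Y ≤ l := by
          by_contra hcon
          exact hpw l hlp (by omega) hlq y hy
        have h3 : Real.sqrt Y ≤ Real.sqrt l := Real.sqrt_le_sqrt (by exact_mod_cast hYl)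
        have h4 : 0 < Real.sqrt Y := Real.sqrt_pos.2 hYpos
        exact one_div_le_one_div_of_le h4 h3
    refine (sum_le_sum hterm).trans ?_
    rw [sum_add_distrib, sum_const, nsmul_eq_mul]
    have h1 : ∑ l ∈ m.primeFactors, (if l = q₁ then 1 / Real.sqrt (q₁ : ℝ) else 0) ≤ 1 / Real.sqrt q₁ := by
      rw [sum_ite_eq' m.primeFactors q₁]
      split_ifs
      · exact le_rfl
      · positivity
    have h2 : 1 / Real.sqrt (q₁ : ℝ) ≤ 1 / Real.sqrt ((min q₁ Y : ℕ) : ℝ) := by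
      apply one_div_le_one_div_of_le
      · apply Real.sqrt_pos.2
        exact_mod_cast (by omega : 0 < min q₁ Y)
      · apply Real.sqrt_le_sqrt
        exact_mod_cast min_le_left q₁ Y
    have h3 : (m.primeFactors.card : ℝ) * (1 / Real.sqrt Y) ≤ 1 / ((min q₁ Y : ℕ) : ℝ) ^ (1 / 6 : ℝ) := by
      have h4 : (m.primeFactors.card : ℝ) ≤ (Y : ℝ) ^ (1 / 3 : ℝ) := by
        have h5 : (m.primeFactors.card : ℝ) ≤ H := by exact_mod_cast hmcard
        refine h5.trans ?_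
        have h6 : ((H : ℝ) ^ 3) ^ (1 / 3 : ℝ) = H := by
          rw [← Real.rpow_natCast, ← Real.rpow_mul (Nat.cast_nonneg H)]
          norm_num
        rw [← h6]
        apply Real.rpow_le_rpow (by positivity) _ (by norm_num)
        exact_mod_cast hHY
      have h5 : (Y : ℝ) ^ (1 / 3 : ℝ) * (1 / Real.sqrt Y) = 1 / (Y : ℝ) ^ (1 / 6 : ℝ) := by
        have e1 := Real.rpow_sub hYpos (1 / 3) (1 / 2)
        have e2 := Real.rpow_neg hYpos.le (1 / 6)
        rw [Real.sqrt_eq_rpow, mul_one_div, ← e1, one_div ((Y : ℝ) ^ (1 / 6 : ℝ)), ← e2]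
        norm_num
      have h7 : (m.primeFactors.card : ℝ) * (1 / Real.sqrt Y) ≤ 1 / (Y : ℝ) ^ (1 / 6 : ℝ) := by
        rw [← h5]
        exact mul_le_mul_of_nonneg_right h4 (by positivity)
      refine h7.trans ?_
      apply one_div_le_one_div_of_le
      · apply Real.rpow_pos_of_pos
        exact_mod_cast (by omega : 0 < min q₁ Y)
      · apply Real.rpow_le_rpow (Nat.cast_nonneg _) _ (by norm_num)
        exact_mod_cast min_le_right q₁ Y
    have h8 := hY₀ (min q₁ Y) (by omega)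
    linarith
  have hη1 : η' ≤ 1 := by rw [hη']; exact min_le_left _ _
  have hη2 : η' ≤ η / 2 := by rw [hη']; exact min_le_right _ _
  have h1 : Real.exp (∑ l ∈ m.primeFactors, 1 / Real.sqrt l) ≤ Real.exp η' := Real.exp_le_exp.2 hsum
  have h2 := Real.abs_exp_sub_one_le (x := η') (by rw [abs_of_pos hη'0]; exact hη1)
  rw [abs_of_pos hη'0] at h2
  have h3 := (le_abs_self _).trans h2
  linarith

end

end Pool.Agent.KS6_33.PG
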