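import Pool.Agent.KS6_33.SP.YD
import Pool.Agent.KS6_33.LE.LA

/-! # Perfect powers in the family are detected by the primes of a set `S` -/

set_option autoImplicit false

namespace Pool.Agent.KS6_33.PG

open Finset Filter Polynomial Pool.Agent.R459.Eq Pool.Agent.H730R2.AA Pool.Agent.R318.PR Pool.Agent.KS6_33.EX
  Pool.Agent.KS6_33.SP Pool.Agent.KS6_33.LE

/-- the primes used for the detection of the `l`-th powers -/
def GoodS (d M₀ l r x : ℕ) (c q : ℤ) (S : Finset ℕ) : Prop :=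
  ∀ p ∈ S, p.Prime ∧ p ≤ x ∧ ¬ p ∣ M₀ ∧ ¬ (p : ℤ) ∣ c ∧ ¬ (p : ℤ) ∣ q ∧ l ∣ p - 1 ∧
    5 * ((d : ℝ) + 1) * ((Nat.gcd r (p - 1) : ℝ) * (((p - 1).divisors.card : ℝ) / Real.sqrt p)) ≤ 1 / 4

lemma fC_pow (l p : ℕ) [Fact p.Prime] (hl : l ∣ p - 1) (y : ℤ) :
    fC l True 1 p (y ^ l) = 1 := by
  unfold fC
  rw [if_pos trivial, if_pos]
  by_cases hy : (y : ZMod p) = 0
  · left
    by_cases hl0 : l = 0
    · exfalso
      rw [hl0] at hl
      have := Nat.eq_zero_of_zero_dvd hl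
      have := (Fact.out (p := p.Prime)).one_lt
      omega
    · push_cast
      rw [hy, zero_pow hl0]
  · right
    push_cast
    rw [one_mul, ← pow_mul, Nat.mul_div_cancel' hl]
    exact ZMod.pow_card_sub_one_eq_one hy

theorem few_l (F : ℤ[X]) (d M₀ : ℕ) (hW : ∀ p : ℕ, p.Prime → ¬ p ∣ M₀ → WB F d p)
    (l r x N : ℕ) (hl : 2 ≤ l) (hr : r ≠ 0) (b c q : ℤ) (S : Finset ℕ) (hS : GoodS d M₀ l r x c q S)
    (E : Finset ℕ) (hE : E ⊆ range N) (hEp : ∀ j ∈ E, ∃ y : ℤ, F.eval (c * (b + q * (j : ℤ)) ^ r) = y ^ l) :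
    (E.card : ℝ) * (S.card : ℝ) ≤ 16 * N + 16 * (S.card : ℝ) * x ^ 2 := by
  classical
  obtain ⟨g, hg⟩ : ∃ g : ℕ → ℕ → ℝ, g = fun p j => fam F c b q r (fC l True 1 p) j := ⟨_, rfl⟩
  have hl1 : (2 : ℝ) ≤ l := by exact_mod_cast hl
  have hev : ∀ p ∈ S, ∃ hp : Fact p.Prime, Ev p (fC l True 1 p) (1 / (l : ℝ)) := by
    intro p hp
    obtain ⟨hpp, _, _, _, _, hlp, _⟩ := hS p hp
    haveI : Fact p.Prime := ⟨hpp⟩
    refine ⟨⟨hpp⟩, ?_⟩
    have h := ev_cls (p := p) l True (fun _ => hlp) 1 (by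
      intro h1
      have := Int.natCast_dvd.1 h1
      simp at this
      exact hpp.one_lt.ne' this)
    rw [if_pos trivial] at h
    exact h
  have hmean : ∀ p ∈ S, (∑ i ∈ range p, g p i) / p ≤ 3 / 4 := by
    intro p hp
    obtain ⟨hF, hE'⟩ := hev p hp
    obtain ⟨hpp, _, hpM, hpc, hpq, _, herr⟩ := hS p hp
    haveI := hF
    have hWp := hW p hpp hpM
    obtain ⟨h1, h2⟩ := hWp
    have h3 := mean_pow p F d r hr h1 h2 _ _ hE' c b q hpc hpq
    have h4 := (le_abs_self _).trans (h3.trans herr)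
    have h5 : 1 / (l : ℝ) ≤ 1 / 2 := one_div_le_one_div_of_le (by norm_num) hl1
    rw [hg]
    linarith
  have hone : ∀ j ∈ E, ∀ p ∈ S, g p j = 1 := by
    intro j hj p hp
    obtain ⟨hF, hE'⟩ := hev p hp
    obtain ⟨_, _, _, _, _, hlp, _⟩ := hS p hp
    haveI := hF
    obtain ⟨y, hy⟩ := hEp j hj
    rw [hg]
    dsimp only
    unfold fam
    rw [hy]
    exact fC_pow l p hlp y
  have hvar := variance_int S x (fun p hp => ⟨(hS p hp).1, (hS p hp).2.1⟩) g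
    (fun p hp j => by
      obtain ⟨hF, hE'⟩ := hev p hp
      rw [hg]
      exact fam_mem F c b q r _ hE'.mem j)
    (fun p hp j => by
      obtain ⟨hF, hE'⟩ := hev p hp
      rw [hg]
      exact fam_per F c b q r p _ hE'.per j) N
  have hlow : ∀ j ∈ E, (S.card : ℝ) ^ 2 / 16 ≤ (∑ p ∈ S, (g p j - (∑ i ∈ range p, g p i) / p)) ^ 2 := by
    intro j hj
    have h1 : (S.card : ℝ) * (1 / 4) ≤ ∑ p ∈ S, (g p j - (∑ i ∈ range p, g p i) / p) := by
      rw [← nsmul_eq_mul]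
      apply card_nsmul_le_sum
      intro p hp
      have := hmean p hp
      rw [hone j hj p hp]
      linarith
    have h2 : (0 : ℝ) ≤ (S.card : ℝ) * (1 / 4) := by positivity
    have h3 := pow_le_pow_left₀ h2 h1 2
    calc (S.card : ℝ) ^ 2 / 16 = ((S.card : ℝ) * (1 / 4)) ^ 2 := by ring
      _ ≤ _ := h3
  have h1 : (E.card : ℝ) * ((S.card : ℝ) ^ 2 / 16) ≤ (N : ℝ) * S.card + (S.card : ℝ) ^ 2 * x ^ 2 := by
    refine le_trans ?_ hvar
    rw [← nsmul_eq_mul]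
    refine (card_nsmul_le_sum _ _ _ hlow).trans ?_
    exact sum_le_sum_of_subset_of_nonneg hE fun j _ _ => sq_nonneg _
  rcases Nat.eq_zero_or_pos S.card with h0 | h0
  · rw [h0]
    push_cast
    have : (0 : ℝ) ≤ N := Nat.cast_nonneg N
    nlinarith
  · have hs0 : (0 : ℝ) < S.card := by exact_mod_cast h0
    have h2 : (S.card : ℝ) * ((E.card : ℝ) * (S.card : ℝ)) ≤
        (S.card : ℝ) * (16 * N + 16 * (S.card : ℝ) * x ^ 2) := by
      nlinarith
    exact le_of_mul_le_mul_left h2 hs0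

end Pool.Agent.KS6_33.PG
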