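import Pool.Agent.KS6_33.PG.PB
import Pool.Graph.R_pool_sql_team_seeded_1acbe0a2.Y866.LK.Page
import Pool.Graph.R_seed8.H353R2.Z2

/-! # Many primes `p ≡ 1 (mod l)` for the detection -/

set_option autoImplicit false

namespace Pool.Agent.KS6_33.PG

open Finset Filter

lemma sum_union_le' (f : ℕ → ℝ) (hf : ∀ p, 0 ≤ f p) (A B : Finset ℕ) :
    ∑ p ∈ A ∪ B, f p ≤ ∑ p ∈ A, f p + ∑ p ∈ B, f p := by
  have := sum_union_inter (s₁ := A) (s₂ := B) (f := f)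
  have h3 : 0 ≤ ∑ p ∈ A ∩ B, f p := sum_nonneg fun p _ => hf p
  linarith

lemma sum_biUnion_le' (s : Finset ℕ) (t : ℕ → Finset ℕ) (f : ℕ → ℝ) (hf : ∀ p, 0 ≤ f p) :
    ∑ p ∈ s.biUnion t, f p ≤ ∑ i ∈ s, ∑ p ∈ t i, f p := by
  classical
  induction s using Finset.induction_on with
  | empty => simp
  | insert a s ha ih =>
    rw [biUnion_insert, sum_insert ha]
    exact (sum_union_le' f hf _ _).trans (add_le_add le_rfl ih)

/-- the reciprocals of the primes `p ≡ 1 (mod g)` -/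
lemma inv_sum (z x g : ℕ) (hg : 0 < g) :
    ∑ p ∈ (Ioc z x).filter (fun p => p.Prime ∧ g ∣ p - 1), (1 : ℝ) / p ≤ (1 + Real.log x) / g := by
  classical
  have hg0 : (0 : ℝ) < g := by exact_mod_cast hg
  obtain ⟨T, hT⟩ : ∃ T : Finset ℕ, T = (Ioc z x).filter (fun p => p.Prime ∧ g ∣ p - 1) := ⟨_, rfl⟩
  rw [← hT]
  have h3 : ∀ p ∈ T, 1 ≤ (p - 1) / g ∧ (p - 1) / g ≤ x ∧ g * ((p - 1) / g) = p - 1 ∧ 1 ≤ p := by
    intro p hp
    rw [hT, mem_filter, mem_Ioc] at hp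
    obtain ⟨⟨_, hpx⟩, hpp, m, hm⟩ := hp
    have hp2 := hpp.two_le
    rw [hm, Nat.mul_div_cancel_left _ hg]
    have hm0 : 0 < m := by
      rcases Nat.eq_zero_or_pos m with h | h
      · rw [h] at hm; omega
      · exact h
    refine ⟨hm0, ?_, rfl, by omega⟩
    have : m ≤ g * m := Nat.le_mul_of_pos_left _ hg
    omega
  have h1 : ∀ p ∈ T, (1 : ℝ) / p ≤ (1 / (g : ℝ)) * (1 / ((((p - 1) / g - 1 : ℕ) : ℝ) + 1)) := by
    intro p hp
    obtain ⟨e1, e2, e3, e4⟩ := h3 p hp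
    obtain ⟨m, hm⟩ : ∃ m, m = (p - 1) / g := ⟨_, rfl⟩
    rw [← hm] at e1 e2 e3 ⊢
    have e5 : (((m - 1 : ℕ) : ℝ) + 1) = m := by
      rw [Nat.cast_sub e1]; push_cast; ring
    rw [e5, one_div_mul_one_div]
    have hm0 : (0 : ℝ) < m := by exact_mod_cast (by omega : 0 < m)
    apply one_div_le_one_div_of_le (by positivity)
    have : g * m ≤ p := by omega
    exact_mod_cast this
  refine (sum_le_sum h1).trans ?_
  rw [← mul_sum]
  have h2 : ∑ p ∈ T, (1 / ((((p - 1) / g - 1 : ℕ) : ℝ) + 1)) ≤ ∑ i ∈ range x, (1 / ((i : ℝ) + 1)) := by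
    rw [← sum_image (s := T) (g := fun p => (p - 1) / g - 1) (f := fun i : ℕ => (1 / ((i : ℝ) + 1)))]
    · apply sum_le_sum_of_subset_of_nonneg
      · intro i hi
        rw [mem_image] at hi
        obtain ⟨p, hp, rfl⟩ := hi
        obtain ⟨e1, e2, e3, e4⟩ := h3 p hp
        rw [mem_range]
        omega
      · intro i _ _
        positivity
    · intro p hp p' hp' hpp
      obtain ⟨e1, e2, e3, e4⟩ := h3 p hp
      obtain ⟨e1', e2', e3', e4'⟩ := h3 p' hp'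
      dsimp only at hpp
      have : (p - 1) / g = (p' - 1) / g := by omega
      rw [this] at e3
      omega
  have h4 : ∑ i ∈ range x, (1 / ((i : ℝ) + 1)) ≤ 1 + Real.log x := by
    have := harmonic_le_one_add_log x
    unfold harmonic at this
    push_cast at this
    simpa [one_div] using this
  calc (1 / (g : ℝ)) * ∑ p ∈ T, (1 / ((((p - 1) / g - 1 : ℕ) : ℝ) + 1))
      ≤ (1 / (g : ℝ)) * (1 + Real.log x) := mul_le_mul_of_nonneg_left (h2.trans h4) (by positivity)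
    _ = _ := by ring

/-- **Many primes for the detection** -/
theorem pop : ∃ K : ℕ, 1 ≤ K ∧ ∀ (d M₀ : ℕ), M₀ ≠ 0 → ∃ z₁ : ℕ, ∀ z : ℕ, z₁ ≤ z → ∃ q₁ : ℕ,
    Real.log z < q₁ ∧ ∀ (l r : ℕ) (c q : ℤ) (u : ℝ), u ^ 32 = z → 1 ≤ u → l.Prime → (l : ℝ) ≤ u → l ≠ q₁ →
      r ≠ 0 → c ≠ 0 → q ≠ 0 → (r.divisors.card : ℝ) ≤ u ^ 2 → (c.natAbs.primeFactors.card : ℝ) ≤ u ^ 16 →
      (q.natAbs.primeFactors.card : ℝ) ≤ u ^ 16 →
      ∃ S : Finset ℕ, GoodS d M₀ l r (z ^ K) c q S ∧ u ^ 16 ≤ S.card := by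
  classical
  obtain ⟨K, cc, hK, hcc, hpage⟩ := Pool.Agent.Y866.LK.page
  refine ⟨K, hK, fun d M₀ hM₀ => ?_⟩
  obtain ⟨z0, hz0⟩ := hpage 1
  obtain ⟨Cd, hCd, hdiv⟩ := H353.divisor_bound_real (1 / 8) (by norm_num)
  obtain ⟨ω₀, hω₀⟩ : ∃ ω₀ : ℝ, ω₀ = (M₀.primeFactors.card : ℝ) := ⟨_, rfl⟩
  have hω00 : 0 ≤ ω₀ := by rw [hω₀]; exact Nat.cast_nonneg _
  obtain ⟨U, hU⟩ : ∃ U : ℝ, U = 20 * (d + 1) * Cd + 2 * (ω₀ + 3 + K) / cc + 2 / cc + 1 := ⟨_, rfl⟩
  have hU1 : 1 ≤ U := by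
    rw [hU]
    have : (0 : ℝ) ≤ 20 * (d + 1) * Cd + 2 * (ω₀ + 3 + K) / cc + 2 / cc := by positivity
    linarith
  obtain ⟨z1, hz1⟩ := exists_nat_ge (U ^ 32)
  have hlogev := Pool.Agent.KS6_33.EX.ev_log_pow 1 (1 / 32) (by norm_num)
  obtain ⟨z2, hz2⟩ := eventually_atTop.1 hlogev
  refine ⟨z0 + z1 + z2 + 2, fun z hz => ?_⟩
  obtain ⟨q₁, hq₁2, hq₁, hp⟩ := hz0 z (by omega)
  rw [pow_one] at hq₁
  refine ⟨q₁, hq₁, ?_⟩
  intro l r c q u huz hu1 hl hlu hlq hr hc hq hτ hωc hωq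
  have hzpos : (0 : ℝ) < z := by exact_mod_cast (by omega : 0 < z)
  have hu0 : 0 < u := by linarith
  have hUu : U ≤ u := by
    have h1 : U ^ 32 ≤ u ^ 32 := by
      rw [huz]
      refine hz1.trans ?_
      exact_mod_cast (by omega : z1 ≤ z)
    exact le_of_pow_le_pow_left₀ (by norm_num) hu0.le h1
  have hur : (z : ℝ) ^ (1 / 32 : ℝ) = u := by
    rw [← huz, ← Real.rpow_natCast, ← Real.rpow_mul hu0.le]
    norm_num
  have hlog : Real.log z ≤ u := by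
    have h1 := hz2 z (by omega)
    rw [Real.rpow_one, hur] at h1
    exact h1
  have hlog0 : 0 ≤ Real.log z := Real.log_nonneg (by exact_mod_cast (by omega : 1 ≤ z))
  have hl0 : 0 < l := hl.pos
  have hlz : l ^ 16 ≤ z := by
    have h1 : (l : ℝ) ^ 16 ≤ u ^ 16 := pow_le_pow_left₀ (Nat.cast_nonneg l) hlu 16
    have h2 : u ^ 16 ≤ u ^ 32 := pow_le_pow_right₀ hu1 (by norm_num)
    rw [huz] at h2
    exact_mod_cast h1.trans h2
  have hq₁l : ¬ q₁ ∣ l := by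
    intro h
    rcases (Nat.dvd_prime hl).1 h with h1 | h1
    · omega
    · exact hlq h1.symm
  have hpg := hp l 1 hl0 hlz hq₁l (Nat.coprime_one_left l)
  obtain ⟨T, hT⟩ : ∃ T : Finset ℕ, T = (Ioc z (z ^ K)).filter (fun p => p.Prime ∧ p ≡ 1 [MOD l]) := ⟨_, rfl⟩
  rw [← hT] at hpg
  have hTm : ∀ p ∈ T, z < p ∧ p ≤ z ^ K ∧ p.Prime ∧ l ∣ p - 1 := by
    intro p hpT
    rw [hT, mem_filter, mem_Ioc] at hpT
    refine ⟨hpT.1.1, hpT.1.2, hpT.2.1, ?_⟩
    exact (Nat.modEq_iff_dvd' hpT.2.1.one_le).1 hpT.2.2.symm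
  have hTlow : cc / u ≤ ∑ p ∈ T, (1 : ℝ) / p := by
    refine le_trans ?_ hpg
    have h1 : (l.totient : ℝ) ≤ u := (by exact_mod_cast Nat.totient_le l : (l.totient : ℝ) ≤ l).trans hlu
    have h2 : (0 : ℝ) < l.totient := by exact_mod_cast Nat.totient_pos.2 hl0
    exact div_le_div_of_nonneg_left hcc.le h2 h1
  obtain ⟨T1, hT1⟩ : ∃ T1 : Finset ℕ, T1 = T.filter (fun p => p ∣ M₀ ∨ p ∣ c.natAbs ∨ p ∣ q.natAbs) := ⟨_, rfl⟩
  obtain ⟨T2, hT2⟩ : ∃ T2 : Finset ℕ, T2 = T.filter (fun p => u ^ 8 < (Nat.gcd r (p - 1) : ℝ)) := ⟨_, rfl⟩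
  obtain ⟨S, hS⟩ : ∃ S : Finset ℕ, S = (T \ T1).filter (fun p => (Nat.gcd r (p - 1) : ℝ) ≤ u ^ 8) := ⟨_, rfl⟩
  have hST : S ⊆ T := by
    rw [hS]
    exact (filter_subset _ _).trans sdiff_subset
  have hinv : ∀ p ∈ T, (1 : ℝ) / p ≤ 1 / z := by
    intro p hpT
    apply one_div_le_one_div_of_le hzpos
    exact_mod_cast (hTm p hpT).1.le
  -- the first bad set
  have hb1 : ∑ p ∈ T1, (1 : ℝ) / p ≤ (ω₀ + 2) / u ^ 16 := by
    have h1 : (T1.card : ℝ) ≤ ω₀ + 2 * u ^ 16 := by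
      have h2 : T1 ⊆ M₀.primeFactors ∪ (c.natAbs.primeFactors ∪ q.natAbs.primeFactors) := by
        intro p hpT
        rw [hT1, mem_filter] at hpT
        have hpp := (hTm p hpT.1).2.2.1
        rw [mem_union, mem_union]
        rcases hpT.2 with h | h | h
        · exact Or.inl (Nat.mem_primeFactors.2 ⟨hpp, h, hM₀⟩)
        · exact Or.inr (Or.inl (Nat.mem_primeFactors.2 ⟨hpp, h, Int.natAbs_ne_zero.2 hc⟩))
        · exact Or.inr (Or.inr (Nat.mem_primeFactors.2 ⟨hpp, h, Int.natAbs_ne_zero.2 hq⟩))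
      have h3 : (T1.card : ℝ) ≤ (M₀.primeFactors.card : ℝ) + ((c.natAbs.primeFactors.card : ℝ) +
          (q.natAbs.primeFactors.card : ℝ)) := by
        exact_mod_cast (card_le_card h2).trans ((card_union_le _ _).trans
          (Nat.add_le_add_left (card_union_le _ _) _))
      rw [← hω₀] at h3
      linarith
    have h2 : ∑ p ∈ T1, (1 : ℝ) / p ≤ (T1.card : ℝ) * (1 / z) := by
      rw [← nsmul_eq_mul]
      apply sum_le_card_nsmul
      intro p hpT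
      rw [hT1, mem_filter] at hpT
      exact hinv p hpT.1
    refine h2.trans ?_
    have h3 : ω₀ + 2 * u ^ 16 ≤ (ω₀ + 2) * u ^ 16 := by
      have : (1 : ℝ) ≤ u ^ 16 := one_le_pow₀ hu1
      nlinarith
    calc (T1.card : ℝ) * (1 / z) ≤ ((ω₀ + 2) * u ^ 16) * (1 / z) :=
          mul_le_mul_of_nonneg_right (h1.trans h3) (by positivity)
      _ = (ω₀ + 2) / u ^ 16 := by
          rw [← huz]
          field_simp
  -- the second bad set
  have hb2 : ∑ p ∈ T2, (1 : ℝ) / p ≤ (1 + K) / u ^ 5 := by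
    have h1 : T2 ⊆ (r.divisors.filter (fun g : ℕ => u ^ 8 < (g : ℝ))).biUnion
        (fun g => (Ioc z (z ^ K)).filter (fun p => p.Prime ∧ g ∣ p - 1)) := by
      intro p hpT
      rw [hT2, mem_filter] at hpT
      obtain ⟨a1, a2, a3, a4⟩ := hTm p hpT.1
      rw [mem_biUnion]
      refine ⟨Nat.gcd r (p - 1), ?_, ?_⟩
      · rw [mem_filter, Nat.mem_divisors]
        exact ⟨⟨Nat.gcd_dvd_left _ _, hr⟩, hpT.2⟩
      · rw [mem_filter, mem_Ioc]
        exact ⟨⟨a1, a2⟩, a3, Nat.gcd_dvd_right _ _⟩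
    have h2 : ∑ p ∈ T2, (1 : ℝ) / p ≤ ∑ g ∈ r.divisors.filter (fun g : ℕ => u ^ 8 < (g : ℝ)),
        ∑ p ∈ (Ioc z (z ^ K)).filter (fun p => p.Prime ∧ g ∣ p - 1), (1 : ℝ) / p := by
      refine (sum_le_sum_of_subset_of_nonneg h1 fun p _ _ => by positivity).trans ?_
      exact sum_biUnion_le' _ _ _ fun p => by positivity
    have h3 : ∀ g ∈ r.divisors.filter (fun g : ℕ => u ^ 8 < (g : ℝ)),
        ∑ p ∈ (Ioc z (z ^ K)).filter (fun p => p.Prime ∧ g ∣ p - 1), (1 : ℝ) / p ≤ (1 + K) * u / u ^ 8 := by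
      intro g hg
      rw [mem_filter] at hg
      have hu8 : 0 < u ^ 8 := by positivity
      have hg0 : (0 : ℝ) < g := hu8.trans hg.2
      refine (inv_sum z (z ^ K) g (by exact_mod_cast hg0)).trans ?_
      have h4 : 1 + Real.log ((z ^ K : ℕ) : ℝ) ≤ (1 + K) * u := by
        push_cast
        rw [Real.log_pow]
        have hK0 : (0 : ℝ) ≤ K := Nat.cast_nonneg K
        nlinarith
      have h5 : 0 ≤ (1 + (K : ℝ)) * u := by positivity
      calc (1 + Real.log ((z ^ K : ℕ) : ℝ)) / g ≤ ((1 + K) * u) / g :=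
            div_le_div_of_nonneg_right h4 hg0.le
        _ ≤ _ := div_le_div_of_nonneg_left h5 hu8 hg.2.le
    have h4 : ((r.divisors.filter (fun g : ℕ => u ^ 8 < (g : ℝ))).card : ℝ) ≤ u ^ 2 := by
      refine le_trans ?_ hτ
      exact_mod_cast card_le_card (filter_subset _ _)
    refine h2.trans ((sum_le_card_nsmul _ _ _ h3).trans ?_)
    rw [nsmul_eq_mul]
    calc ((r.divisors.filter (fun g : ℕ => u ^ 8 < (g : ℝ))).card : ℝ) * ((1 + K) * u / u ^ 8)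
        ≤ u ^ 2 * ((1 + K) * u / u ^ 8) := mul_le_mul_of_nonneg_right h4 (by positivity)
      _ = (1 + K) / u ^ 5 := by field_simp
  have hcover : ∑ p ∈ T, (1 : ℝ) / p ≤ ∑ p ∈ S, (1 : ℝ) / p + (∑ p ∈ T1, (1 : ℝ) / p + ∑ p ∈ T2, (1 : ℝ) / p) := by
    have h1 : T ⊆ S ∪ (T1 ∪ T2) := by
      intro p hpT
      rw [mem_union, mem_union]
      by_cases h1 : p ∈ T1
      · exact Or.inr (Or.inl h1)
      by_cases h2 : (Nat.gcd r (p - 1) : ℝ) ≤ u ^ 8
      · left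
        rw [hS, mem_filter, Finset.mem_sdiff]
        exact ⟨⟨hpT, h1⟩, h2⟩
      · right; right
        rw [hT2, mem_filter]
        exact ⟨hpT, by push Not at h2; exact h2⟩
    refine (sum_le_sum_of_subset_of_nonneg h1 fun p _ _ => by positivity).trans ?_
    have h2 : ∀ A B : Finset ℕ, ∑ p ∈ A ∪ B, (1 : ℝ) / p ≤ ∑ p ∈ A, (1 : ℝ) / p + ∑ p ∈ B, (1 : ℝ) / p := by
      intro A B
      have := sum_union_inter (s₁ := A) (s₂ := B) (f := fun p : ℕ => (1 : ℝ) / p)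
      have h3 : 0 ≤ ∑ p ∈ A ∩ B, (1 : ℝ) / p := sum_nonneg fun p _ => by positivity
      linarith
    exact (h2 _ _).trans (add_le_add le_rfl (h2 _ _))
  have hUu1 : 2 * (ω₀ + 3 + K) / cc ≤ u := by
    have : (0 : ℝ) ≤ 20 * (d + 1) * Cd + 2 / cc := by positivity
    rw [hU] at hUu
    linarith
  have hUu2 : 2 / cc ≤ u := by
    have : (0 : ℝ) ≤ 20 * (d + 1) * Cd + 2 * (ω₀ + 3 + K) / cc := by positivity
    rw [hU] at hUu
    linarith
  have hUu3 : 20 * (d + 1) * Cd ≤ u := by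
    have : (0 : ℝ) ≤ 2 * (ω₀ + 3 + K) / cc + 2 / cc := by positivity
    rw [hU] at hUu
    linarith
  have hSlow : cc / (2 * u) ≤ ∑ p ∈ S, (1 : ℝ) / p := by
    have h1 : (ω₀ + 2) / u ^ 16 + (1 + K) / u ^ 5 ≤ cc / (2 * u) := by
      have h2 : (ω₀ + 2) / u ^ 16 ≤ (ω₀ + 2) / u ^ 2 :=
        div_le_div_of_nonneg_left (by positivity) (by positivity) (pow_le_pow_right₀ hu1 (by norm_num))
      have h3 : (1 + (K : ℝ)) / u ^ 5 ≤ (1 + K) / u ^ 2 :=
        div_le_div_of_nonneg_left (by positivity) (by positivity) (pow_le_pow_right₀ hu1 (by norm_num))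
      have h4 : (ω₀ + 2) / u ^ 2 + (1 + (K : ℝ)) / u ^ 2 ≤ cc / (2 * u) := by
        rw [← add_div, div_le_div_iff₀ (by positivity) (by positivity)]
        rw [div_le_iff₀ hcc] at hUu1
        nlinarith
      linarith
    have h2 : cc / u = cc / (2 * u) + cc / (2 * u) := by field_simp; ring
    rw [h2] at hTlow
    linarith
  refine ⟨S, ?_, ?_⟩
  · intro p hpS
    obtain ⟨a1, a2, a3, a4⟩ := hTm p (hST hpS)
    rw [hS, mem_filter, Finset.mem_sdiff, hT1, mem_filter] at hpS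
    obtain ⟨⟨hpT, hnot⟩, hgcd⟩ := hpS
    have hnot' : ¬ (p ∣ M₀ ∨ p ∣ c.natAbs ∨ p ∣ q.natAbs) := fun h => hnot ⟨hpT, h⟩
    push Not at hnot'
    refine ⟨a3, a2, hnot'.1, fun h => hnot'.2.1 (Int.natCast_dvd.1 h), fun h => hnot'.2.2 (Int.natCast_dvd.1 h),
      a4, ?_⟩
    have hp0 : (0 : ℝ) < p := by exact_mod_cast a3.pos
    have hup : u ^ 32 ≤ p := by rw [huz]; exact_mod_cast a1.le
    -- powers of `p`
    obtain ⟨v, hv⟩ : ∃ v : ℝ, v = (p : ℝ) ^ (1 / 32 : ℝ) := ⟨_, rfl⟩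
    have hv0 : 0 < v := by rw [hv]; positivity
    have hv32 : v ^ 32 = p := by
      rw [hv, ← Real.rpow_natCast, ← Real.rpow_mul hp0.le]
      norm_num
    have huv : u ≤ v := by
      rw [← hv32] at hup
      exact le_of_pow_le_pow_left₀ (by norm_num) hv0.le hup
    have hsq : Real.sqrt p = v ^ 16 := by
      rw [← hv32, show v ^ 32 = (v ^ 16) ^ 2 by ring, Real.sqrt_sq (by positivity)]
    have hdp : ((p - 1).divisors.card : ℝ) ≤ Cd * v ^ 4 := by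
      have hp1 : p - 1 ≠ 0 := by have := a3.two_le; omega
      refine (hdiv (p - 1) hp1).trans ?_
      apply mul_le_mul_of_nonneg_left _ hCd.le
      have h1 : (((p - 1 : ℕ) : ℝ)) ^ (1 / 8 : ℝ) ≤ (p : ℝ) ^ (1 / 8 : ℝ) := by
        apply Real.rpow_le_rpow (Nat.cast_nonneg _) _ (by norm_num)
        exact_mod_cast Nat.sub_le p 1
      refine h1.trans (le_of_eq ?_)
      rw [← hv32, ← Real.rpow_natCast v 32, ← Real.rpow_mul hv0.le, ← Real.rpow_natCast v 4]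
      norm_num
    have hgv : (Nat.gcd r (p - 1) : ℝ) ≤ v ^ 8 := hgcd.trans (pow_le_pow_left₀ hu0.le huv 8)
    rw [hsq]
    have h1 : (Nat.gcd r (p - 1) : ℝ) * (((p - 1).divisors.card : ℝ) / v ^ 16) ≤ v ^ 8 * (Cd * v ^ 4 / v ^ 16) := by
      apply mul_le_mul hgv _ (by positivity) (by positivity)
      exact div_le_div_of_nonneg_right hdp (by positivity)
    have h2 : v ^ 8 * (Cd * v ^ 4 / v ^ 16) = Cd / v ^ 4 := by field_simp
    rw [h2] at h1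
    have h3 : 5 * ((d : ℝ) + 1) * (Cd / v ^ 4) ≤ 1 / 4 := by
      have h4 : 20 * ((d : ℝ) + 1) * Cd ≤ v ^ 4 := by
        refine (hUu3.trans huv).trans ?_
        have hv1 : 1 ≤ v := hu1.trans huv
        calc v = v ^ 1 := (pow_one v).symm
          _ ≤ v ^ 4 := pow_le_pow_right₀ hv1 (by norm_num)
      rw [mul_div_assoc', div_le_iff₀ (by positivity)]
      linarith
    refine le_trans ?_ h3
    exact mul_le_mul_of_nonneg_left h1 (by positivity)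
  · have h1 : ∑ p ∈ S, (1 : ℝ) / p ≤ (S.card : ℝ) * (1 / z) := by
      rw [← nsmul_eq_mul]
      exact sum_le_card_nsmul _ _ _ fun p hpS => hinv p (hST hpS)
    have h2 := hSlow.trans h1
    rw [mul_one_div, div_le_div_iff₀ (by positivity) hzpos, ← huz] at h2
    rw [div_le_iff₀ hcc] at hUu2
    have h3 : 2 * u * u ^ 16 ≤ cc * u ^ 32 := by
      have h4 : u ^ 18 ≤ u ^ 32 := pow_le_pow_right₀ hu1 (by norm_num)
      have h5 : 2 * u ^ 17 ≤ cc * u ^ 18 := by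
        have : 2 * u ^ 17 ≤ (u * cc) * u ^ 17 := mul_le_mul_of_nonneg_right hUu2 (by positivity)
        calc 2 * u ^ 17 ≤ (u * cc) * u ^ 17 := this
          _ = cc * u ^ 18 := by ring
      calc 2 * u * u ^ 16 = 2 * u ^ 17 := by ring
        _ ≤ cc * u ^ 18 := h5
        _ ≤ cc * u ^ 32 := mul_le_mul_of_nonneg_left h4 hcc.le
    have h4 : 2 * u * u ^ 16 ≤ 2 * u * S.card := by
      calc 2 * u * u ^ 16 ≤ cc * u ^ 32 := h3
        _ ≤ S.card * (2 * u) := h2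
        _ = _ := by ring
    exact le_of_mul_le_mul_left h4 (by positivity)

end Pool.Agent.KS6_33.PG
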