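import Pool.Agent.KS6_33.PG.PC

/-! # Few perfect powers in the families -/

set_option autoImplicit false

namespace Pool.Agent.KS6_33.PG

open Finset Filter Polynomial Pool.Agent.KS6_33.EX

/-- few members of the family are perfect powers with a small exponent `l ≠ q₁` -/
theorem few_perf : ∃ K : ℕ, 1 ≤ K ∧ ∀ (F : ℤ[X]) (d M₀ : ℕ), M₀ ≠ 0 →
    (∀ p : ℕ, p.Prime → ¬ p ∣ M₀ → WB F d p) → ∃ s₁ : ℕ, ∀ s : ℕ, s₁ ≤ s →
    ∃ q₁ : ℕ, Real.log s < q₁ ∧ ∀ (N r : ℕ) (b c q : ℤ), s ^ (128 * K) ≤ N → r ≠ 0 → c ≠ 0 → q ≠ 0 →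
      (r.divisors.card : ℝ) ≤ s → (c.natAbs.primeFactors.card : ℝ) ≤ s →
      (q.natAbs.primeFactors.card : ℝ) ≤ s → ∀ E : Finset ℕ, E ⊆ range N →
      (∀ j ∈ E, ∃ l : ℕ, l.Prime ∧ l ≤ s ∧ l ≠ q₁ ∧
        ∃ y : ℤ, F.eval (c * (b + q * (j : ℤ)) ^ r) = y ^ l) → (E.card : ℝ) ≤ 64 * N / (s : ℝ) ^ 15 := by
  classical
  obtain ⟨K, hK, hpop⟩ := pop
  refine ⟨K, hK, fun F d M₀ hM₀ hW => ?_⟩
  obtain ⟨z₁, hz₁⟩ := hpop d M₀ hM₀
  refine ⟨z₁ + 1, fun s hs => ?_⟩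
  have hs1 : 1 ≤ s := by omega
  have hs1r : (1 : ℝ) ≤ s := by exact_mod_cast hs1
  have hs0 : (0 : ℝ) < s := by linarith
  have hsz : s ≤ s ^ 32 := Nat.le_self_pow (by norm_num) s
  obtain ⟨q₁, hq₁, hq⟩ := hz₁ (s ^ 32) (by omega)
  refine ⟨q₁, ?_, ?_⟩
  · refine lt_of_le_of_lt ?_ hq₁
    exact Real.log_le_log hs0 (by exact_mod_cast hsz)
  intro N r b c q hN hr hc hq0 hτ hωc hωq E hE hEp
  have hN1 : 1 ≤ N := le_trans (Nat.one_le_pow _ _ hs1) hN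
  have hN0 : (0 : ℝ) < N := by exact_mod_cast hN1
  have hs2 : (s : ℝ) ≤ (s : ℝ) ^ 2 := by
    calc (s : ℝ) = (s : ℝ) ^ 1 := (pow_one _).symm
      _ ≤ _ := pow_le_pow_right₀ hs1r (by norm_num)
  have hs16 : (s : ℝ) ≤ (s : ℝ) ^ 16 := by
    calc (s : ℝ) = (s : ℝ) ^ 1 := (pow_one _).symm
      _ ≤ _ := pow_le_pow_right₀ hs1r (by norm_num)
  obtain ⟨EE, hEE⟩ : ∃ EE : ℕ → Finset ℕ, EE = fun l => if l.Prime ∧ l ≠ q₁ then
    E.filter (fun j : ℕ => ∃ y : ℤ, F.eval (c * (b + q * (j : ℤ)) ^ r) = y ^ l) else ∅ := ⟨_, rfl⟩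
  have hcover : E ⊆ (range (s + 1)).biUnion EE := by
    intro j hj
    obtain ⟨l, hl, hls, hlq, hy⟩ := hEp j hj
    rw [mem_biUnion]
    refine ⟨l, mem_range.2 (by omega), ?_⟩
    rw [hEE]
    beta_reduce
    rw [if_pos ⟨hl, hlq⟩, mem_filter]
    exact ⟨hj, hy⟩
  have hone : ∀ l ∈ range (s + 1), ((EE l).card : ℝ) ≤ 32 * N / (s : ℝ) ^ 16 := by
    intro l hl
    rw [mem_range] at hl
    rw [hEE]
    beta_reduce
    split_ifs with h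
    swap
    · rw [card_empty]
      push_cast
      positivity
    have hlu : (l : ℝ) ≤ s := by exact_mod_cast (by omega : l ≤ s)
    obtain ⟨S, hS, hSc⟩ := hq l r c q s (by push_cast; rfl) hs1r h.1 hlu h.2 hr hc hq0 (hτ.trans hs2)
      (hωc.trans hs16) (hωq.trans hs16)
    have h1 := few_l F d M₀ hW l r ((s ^ 32) ^ K) N h.1.two_le hr b c q S hS
      (E.filter (fun j : ℕ => ∃ y : ℤ, F.eval (c * (b + q * (j : ℤ)) ^ r) = y ^ l))
      ((filter_subset _ _).trans hE) (fun j hj => (mem_filter.1 hj).2)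
    obtain ⟨e, he⟩ : ∃ e : ℝ, e = ((E.filter (fun j : ℕ => ∃ y : ℤ,
      F.eval (c * (b + q * (j : ℤ)) ^ r) = y ^ l)).card : ℝ) := ⟨_, rfl⟩
    rw [← he] at h1 ⊢
    have hScp : (0 : ℝ) < S.card := lt_of_lt_of_le (by positivity) hSc
    have h2 : ((((s ^ 32) ^ K : ℕ) : ℝ)) ^ 2 * (s : ℝ) ^ 16 ≤ N := by
      have h3 : ((s ^ 32) ^ K) ^ 2 * s ^ 16 ≤ s ^ (128 * K) := by
        rw [← pow_mul, ← pow_mul, ← pow_add]
        apply Nat.pow_le_pow_right hs1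
        omega
      exact_mod_cast h3.trans hN
    rw [le_div_iff₀ (by positivity)]
    have h4 : S.card * (e * (s : ℝ) ^ 16) ≤ S.card * (32 * N) := by
      calc (S.card : ℝ) * (e * (s : ℝ) ^ 16) = (e * S.card) * (s : ℝ) ^ 16 := by ring
        _ ≤ (16 * N + 16 * (S.card : ℝ) * ((((s ^ 32) ^ K : ℕ) : ℝ)) ^ 2) * (s : ℝ) ^ 16 :=
            mul_le_mul_of_nonneg_right h1 (by positivity)
        _ = 16 * N * (s : ℝ) ^ 16 + 16 * (S.card : ℝ) * (((((s ^ 32) ^ K : ℕ) : ℝ)) ^ 2 * (s : ℝ) ^ 16) := by ring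
        _ ≤ 16 * N * S.card + 16 * (S.card : ℝ) * N := by
            apply add_le_add
            · exact mul_le_mul_of_nonneg_left hSc (by positivity)
            · exact mul_le_mul_of_nonneg_left h2 (by positivity)
        _ = _ := by ring
    exact le_of_mul_le_mul_left h4 hScp
  have h1 : (E.card : ℝ) ≤ ∑ l ∈ range (s + 1), ((EE l).card : ℝ) := by
    exact_mod_cast (card_le_card hcover).trans card_biUnion_le
  refine h1.trans ((sum_le_card_nsmul _ _ _ hone).trans ?_)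
  rw [card_range, nsmul_eq_mul, mul_div_assoc', div_le_div_iff₀ (by positivity) (by positivity)]
  push_cast
  have h2 : ((s : ℝ) + 1) ≤ 2 * s := by linarith
  calc ((s : ℝ) + 1) * (32 * N) * (s : ℝ) ^ 15 ≤ (2 * s) * (32 * N) * (s : ℝ) ^ 15 := by gcongr
    _ = 64 * N * (s : ℝ) ^ 16 := by ring

/-- the size of the values -/
lemma poly_bound (P : ℤ[X]) : ∃ A : ℕ, ∀ (t : ℤ) (e : ℕ), t.natAbs ≤ 2 ^ e →
    (P.eval t).natAbs < 2 ^ (A + P.natDegree * e) := by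
  obtain ⟨A, hA⟩ : ∃ A : ℕ, A = ∑ i ∈ range (P.natDegree + 1), (P.coeff i).natAbs := ⟨_, rfl⟩
  refine ⟨A, fun t e ht => ?_⟩
  have h1 : (P.eval t).natAbs ≤ ∑ i ∈ range (P.natDegree + 1), (P.coeff i).natAbs * 2 ^ (P.natDegree * e) := by
    rw [eval_eq_sum_range]
    refine (Int.natAbs_sum_le _ _).trans (sum_le_sum fun i hi => ?_)
    rw [Int.natAbs_mul, Int.natAbs_pow]
    apply Nat.mul_le_mul_left
    calc t.natAbs ^ i ≤ (2 ^ e) ^ i := Nat.pow_le_pow_left ht i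
      _ = 2 ^ (e * i) := (pow_mul _ _ _).symm
      _ ≤ _ := by
          apply Nat.pow_le_pow_right (by norm_num)
          rw [mul_comm]
          apply Nat.mul_le_mul_right
          have := mem_range.1 hi
          omega
  rw [← sum_mul, ← hA] at h1
  refine lt_of_le_of_lt h1 ?_
  rw [pow_add]
  exact Nat.mul_lt_mul_of_pos_right Nat.lt_two_pow_self (by positivity)

/-- the size of the members of the family -/
lemma fam_size (P : ℤ[X]) : ∃ A : ℕ, ∀ (N r H j : ℕ) (b c q : ℤ), j < N → r ≤ 2 ^ H → b.natAbs ≤ 2 ^ (2 ^ H) →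
    c.natAbs ≤ 2 ^ (2 ^ H) → q.natAbs ≤ 2 ^ (2 ^ H) →
    (P.eval (c * (b + q * (j : ℤ)) ^ r)).natAbs < 2 ^ (2 ^ (2 * H + Nat.log 2 N + A)) := by
  obtain ⟨A, hA⟩ := poly_bound P
  refine ⟨A + P.natDegree + 4, fun N r H j b c q hj hr hb hc hq => ?_⟩
  obtain ⟨n₀, hn₀⟩ : ∃ n₀, n₀ = Nat.log 2 N := ⟨_, rfl⟩
  have hN : N < 2 ^ (n₀ + 1) := by rw [hn₀]; exact Nat.lt_pow_succ_log_self (by norm_num) N
  have h1 : (b + q * (j : ℤ)).natAbs ≤ 2 ^ (2 ^ H + (n₀ + 1)) := by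
    refine (Int.natAbs_add_le _ _).trans ?_
    rw [Int.natAbs_mul, Int.natAbs_natCast, pow_add]
    calc b.natAbs + q.natAbs * j ≤ 2 ^ (2 ^ H) + 2 ^ (2 ^ H) * j :=
          Nat.add_le_add hb (Nat.mul_le_mul_right _ hq)
      _ = 2 ^ (2 ^ H) * (j + 1) := by ring
      _ ≤ _ := Nat.mul_le_mul_left _ (by omega)
  obtain ⟨e, he⟩ : ∃ e, e = 2 ^ H + (2 ^ H + (n₀ + 1)) * 2 ^ H := ⟨_, rfl⟩
  have h2 : (c * (b + q * (j : ℤ)) ^ r).natAbs ≤ 2 ^ e := by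
    rw [Int.natAbs_mul, Int.natAbs_pow, he, pow_add, pow_mul]
    apply Nat.mul_le_mul hc
    refine (Nat.pow_le_pow_left h1 r).trans ?_
    exact Nat.pow_le_pow_right (by positivity) hr
  have h3 := hA _ e h2
  refine lt_of_lt_of_le h3 (Nat.pow_le_pow_right (by norm_num) ?_)
  rw [← hn₀]
  have e1 : n₀ + 1 ≤ 2 ^ n₀ := Nat.lt_two_pow_self
  have e2 : A + 1 ≤ 2 ^ A := Nat.lt_two_pow_self
  have e3 : P.natDegree + 1 ≤ 2 ^ P.natDegree := Nat.lt_two_pow_self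
  have e4 : 1 ≤ 2 ^ H := Nat.one_le_two_pow
  have e5 : e ≤ 2 ^ (2 * H + n₀ + 2) := by
    rw [he]
    have e6 : 2 ^ (2 * H + n₀ + 2) = 4 * (2 ^ H * 2 ^ H * 2 ^ n₀) := by
      rw [pow_add, pow_add, two_mul, pow_add]; ring
    rw [e6]
    have e7 : 1 ≤ 2 ^ n₀ := Nat.one_le_two_pow
    have e8 : 2 ^ H ≤ 2 ^ H * 2 ^ H * 2 ^ n₀ := by
      calc 2 ^ H = 2 ^ H * 1 * 1 := by ring
        _ ≤ _ := Nat.mul_le_mul (Nat.mul_le_mul_left _ e4) e7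
    have e9 : 2 ^ H * 2 ^ H ≤ 2 ^ H * 2 ^ H * 2 ^ n₀ := Nat.le_mul_of_pos_right _ (by positivity)
    have e10 : (n₀ + 1) * 2 ^ H ≤ 2 ^ H * 2 ^ H * 2 ^ n₀ := by
      calc (n₀ + 1) * 2 ^ H ≤ 2 ^ n₀ * 2 ^ H := Nat.mul_le_mul_right _ e1
        _ = 1 * (2 ^ H * 2 ^ n₀) := by ring
        _ ≤ 2 ^ H * (2 ^ H * 2 ^ n₀) := Nat.mul_le_mul_right _ e4
        _ = _ := by ring
    rw [add_mul]
    omega
  calc A + P.natDegree * e ≤ 2 ^ A * 2 ^ P.natDegree * 2 ^ (2 * H + n₀ + 2) * 2 := by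
        have f1 : 1 ≤ 2 ^ (2 * H + n₀ + 2) := Nat.one_le_two_pow
        have f2 : A ≤ 2 ^ A * 2 ^ P.natDegree * 2 ^ (2 * H + n₀ + 2) := by
          calc A ≤ 2 ^ A * 1 * 1 := by omega
            _ ≤ _ := Nat.mul_le_mul (Nat.mul_le_mul_left _ Nat.one_le_two_pow) f1
        have f3 : P.natDegree * e ≤ 2 ^ A * 2 ^ P.natDegree * 2 ^ (2 * H + n₀ + 2) := by
          calc P.natDegree * e ≤ 2 ^ P.natDegree * 2 ^ (2 * H + n₀ + 2) := Nat.mul_le_mul (by omega) e5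
            _ = 1 * (2 ^ P.natDegree * 2 ^ (2 * H + n₀ + 2)) := by ring
            _ ≤ 2 ^ A * (2 ^ P.natDegree * 2 ^ (2 * H + n₀ + 2)) := Nat.mul_le_mul_right _ Nat.one_le_two_pow
            _ = _ := by ring
        omega
    _ = 2 ^ (2 * H + n₀ + (A + P.natDegree + 4) - 1) := by
        rw [← pow_add, ← pow_add, ← pow_succ]
        congr 1
        omega
    _ ≤ _ := Nat.pow_le_pow_right (by norm_num) (by omega)

end Pool.Agent.KS6_33.PG
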