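import Pool.Agent.KS6_33.PG.PA
import Pool.Agent.KS6_33.PG.PD
import Pool.Agent.KS6_33.LE.LG
import Pool.Agent.KS6_33.SP.YF

/-! # The main theorem for the families of powers -/

set_option autoImplicit false

namespace Pool.Agent.KS6_33.PG

open Finset Filter Topology NumberField Polynomial Pool.Agent.R459.Eq Pool.Agent.H730R2.AA Pool.Agent.R318.PR
  Pool.Agent.KS6_33.EX Pool.Agent.KS6_33.SP Pool.Agent.KS6_33.LE
open Pool.Agent.W171.LG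
open Pool.Agent.W401.Cheb

/-- the choice of the bound for the exponents -/
lemma choose_s (K : ℕ) (hK : 1 ≤ K) (A S₀ Y₀ : ℕ) : ∃ N₀ : ℕ, 2 ≤ N₀ ∧ ∀ N : ℕ, N₀ ≤ N → ∃ s : ℕ, S₀ ≤ s ∧ Y₀ ≤ s ∧
    (Y₀ : ℝ) ≤ Real.log s ∧ 64 ≤ s ∧ s ^ (128 * K) ≤ N ∧ (N : ℝ) ^ (1 / (1024 * K) : ℝ) ≤ s ∧
    ∀ H : ℕ, (H : ℝ) ≤ (N : ℝ) ^ (1 / (1024 * K) : ℝ) → (2 * H + Nat.log 2 N + A) ^ 3 ≤ s := by
  have hK0 : (0 : ℝ) < K := by exact_mod_cast (by omega : 0 < K)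
  obtain ⟨c₀, hc₀⟩ : ∃ c₀ : ℝ, c₀ = 1 / (1024 * K) := ⟨_, rfl⟩
  have hc0 : 0 < c₀ := by rw [hc₀]; positivity
  have hlog := ev_log_pow 1 c₀ hc0
  have h5 : Tendsto (fun N : ℕ => (N : ℝ) ^ (5 * c₀)) atTop atTop :=
    (tendsto_rpow_atTop (by positivity)).comp tendsto_natCast_atTop_atTop
  have h8 : Tendsto (fun N : ℕ => (N : ℝ) ^ (8 * c₀)) atTop atTop :=
    (tendsto_rpow_atTop (by positivity)).comp tendsto_natCast_atTop_atTop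
  have hfl : Tendsto (fun N : ℕ => ⌊(N : ℝ) ^ (8 * c₀)⌋₊) atTop atTop := tendsto_nat_floor_atTop.comp h8
  have hfl' : Tendsto (fun N : ℕ => Real.log (⌊(N : ℝ) ^ (8 * c₀)⌋₊ : ℝ)) atTop atTop :=
    log_atTop.comp hfl
  obtain ⟨N₀, hN₀⟩ := eventually_atTop.1 (hlog.and ((h5.eventually_ge_atTop (2 * ((4 + A : ℕ) : ℝ) ^ 3)).and
    ((hfl.eventually_ge_atTop (S₀ + Y₀ + 64)).and ((hfl'.eventually_ge_atTop (Y₀ : ℝ)).and
      (eventually_ge_atTop 2)))))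
  refine ⟨N₀ + 2, by omega, fun N hN => ?_⟩
  obtain ⟨e1, e2, e3, e4, e5⟩ := hN₀ N (by omega)
  have hN0 : (0 : ℝ) < N := by exact_mod_cast (by omega : 0 < N)
  have hN1 : (1 : ℝ) ≤ N := by exact_mod_cast (by omega : 1 ≤ N)
  obtain ⟨w, hw⟩ : ∃ w : ℝ, w = (N : ℝ) ^ (8 * c₀) := ⟨_, rfl⟩
  obtain ⟨v, hv⟩ : ∃ v : ℝ, v = (N : ℝ) ^ c₀ := ⟨_, rfl⟩
  have hw0 : 0 < w := by rw [hw]; positivity
  have hv0 : 0 < v := by rw [hv]; positivity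
  have hv1 : 1 ≤ v := by rw [hv]; exact Real.one_le_rpow hN1 hc0.le
  obtain ⟨s, hs⟩ : ∃ s : ℕ, s = ⌊(N : ℝ) ^ (8 * c₀)⌋₊ := ⟨_, rfl⟩
  rw [← hs] at e3 e4
  have hsw : (s : ℝ) ≤ w := by rw [hs, hw]; exact Nat.floor_le (by positivity)
  have hs64 : (64 : ℝ) ≤ s := by exact_mod_cast (by omega : 64 ≤ s)
  have hws : w / 2 ≤ s := by
    have := Nat.lt_floor_add_one ((N : ℝ) ^ (8 * c₀))
    rw [← hs, ← hw] at this
    linarith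
  have hwv : w = v ^ 5 * v ^ 3 := by
    rw [hw, hv, ← pow_add, ← Real.rpow_natCast, ← Real.rpow_mul hN0.le]
    congr 1
    push_cast
    ring
  have hv5 : (N : ℝ) ^ (5 * c₀) = v ^ 5 := by
    rw [hv, ← Real.rpow_natCast, ← Real.rpow_mul hN0.le]
    congr 1
    push_cast
    ring
  rw [hv5] at e2
  rw [← hc₀, ← hv]
  have hA : (4 : ℝ) ≤ ((4 + A : ℕ) : ℝ) := by push_cast; have : (0 : ℝ) ≤ A := Nat.cast_nonneg A; linarith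
  have hvw : v ≤ w / 2 := by
    have h1 : (2 : ℝ) ≤ v ^ 5 := by
      have : (1 : ℝ) ≤ ((4 + A : ℕ) : ℝ) ^ 3 := one_le_pow₀ (by linarith)
      linarith
    have h2 : v ≤ v ^ 3 := by
      calc v = v ^ 1 := (pow_one v).symm
        _ ≤ _ := pow_le_pow_right₀ hv1 (by norm_num)
    rw [hwv]
    nlinarith
  refine ⟨s, by omega, by omega, e4, by omega, ?_, hvw.trans hws, ?_⟩
  · have h1 : (s : ℝ) ^ (128 * K) ≤ N := by
      calc (s : ℝ) ^ (128 * K) ≤ w ^ (128 * K) := pow_le_pow_left₀ (Nat.cast_nonneg s) hsw _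
        _ = N := by
            rw [hw, ← Real.rpow_natCast, ← Real.rpow_mul hN0.le, hc₀]
            push_cast
            have : 8 * (1 / (1024 * (K : ℝ))) * (128 * K) = 1 := by field_simp; norm_num
            rw [this, Real.rpow_one]
    exact_mod_cast h1
  · intro H hH
    have h1 : ((Nat.log 2 N : ℕ) : ℝ) ≤ 2 * v := by
      have h2 : ((Nat.log 2 N : ℕ) : ℝ) * Real.log 2 ≤ Real.log N := by
        rw [← Real.log_pow]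
        apply Real.log_le_log (by positivity)
        exact_mod_cast Nat.pow_log_le_self 2 (by omega)
      rw [Real.rpow_one, ← hv] at e1
      have h3 := Real.log_two_gt_d9
      have h4 : (0 : ℝ) ≤ ((Nat.log 2 N : ℕ) : ℝ) := Nat.cast_nonneg _
      nlinarith
    have h2 : (2 * (H : ℝ) + ((Nat.log 2 N : ℕ) : ℝ) + A) ≤ ((4 + A : ℕ) : ℝ) * v := by
      push_cast
      have : (0 : ℝ) ≤ A := Nat.cast_nonneg A
      nlinarith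
    have h3 : (2 * (H : ℝ) + ((Nat.log 2 N : ℕ) : ℝ) + A) ^ 3 ≤ s := by
      refine (pow_le_pow_left₀ (by positivity) h2 3).trans (le_trans ?_ hws)
      rw [mul_pow, hwv]
      have h4 : 0 ≤ v ^ 3 := by positivity
      nlinarith
    exact_mod_cast h3

/-- **Main theorem** -/
theorem len_pow : ∃ c₀ : ℝ, 0 < c₀ ∧ c₀ ≤ 1 / 4 ∧ ∀ (P : ℤ[X]) (z : ℂ), z ≠ 0 → aeval z P = 0 →
    aeval z (derivative P) ≠ 0 →
    ∀ (F : IntermediateField ℚ QA) [NumberField F] [IsGalois ℚ F] (C : Set Gal(F/ℚ)) (W0 : Subgroup ℚˣ) (k : ℕ),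
    (∀ σ ∈ C, ∀ τ : Gal(F/ℚ), τ * σ * τ⁻¹ ∈ C) → W0.FG → k ≠ 0 → ∀ (ε κ : ℝ), 0 < ε → 0 < κ → κ ≤ c₀ →
    ∃ (B : ℝ) (X₀ : ℕ), 0 < B ∧ ∀ (X N r H : ℕ) (b c q : ℤ), X₀ ≤ X → r ≠ 0 → c ≠ 0 → q ≠ 0 →
      (r.divisors.card : ℝ) ≤ (X : ℝ) ^ c₀ → (c.natAbs.primeFactors.card : ℝ) ≤ (X : ℝ) ^ c₀ →
      (q.natAbs.primeFactors.card : ℝ) ≤ (X : ℝ) ^ c₀ →
      r ≤ 2 ^ H → b.natAbs ≤ 2 ^ (2 ^ H) → c.natAbs ≤ 2 ^ (2 ^ H) → q.natAbs ≤ 2 ^ (2 ^ H) →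
      (H : ℝ) ≤ (N : ℝ) ^ c₀ → ∀ E : Finset ℕ, E ⊆ range N →
      (∀ j ∈ E, ∃ x : ℕ, X ≤ x ∧ (x : ℝ) ^ (2 + κ) ≤ N ∧
        ¬ LL F C W0 k ε (P.eval (c * (b + q * (j : ℤ)) ^ r)) x) →
      (E.card : ℝ) ≤ B * (N / (X : ℝ) ^ κ) := by
  classical
  obtain ⟨K, hK, hfew⟩ := few_perf
  have hK0 : (0 : ℝ) < K := by exact_mod_cast (by omega : 0 < K)
  have hK1 : (1 : ℝ) ≤ K := by exact_mod_cast hK
  obtain ⟨c₀, hc₀⟩ : ∃ c₀ : ℝ, c₀ = 1 / (1024 * K) := ⟨_, rfl⟩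
  have hc0 : 0 < c₀ := by rw [hc₀]; positivity
  have hc4 : c₀ ≤ 1 / 4 := by
    rw [hc₀]
    apply one_div_le_one_div_of_le (by norm_num)
    linarith
  refine ⟨c₀, hc0, hc4, ?_⟩
  intro P z hz h0 h1 F _ _ C W0 k hC hW0 hk ε κ hε hκ hκc
  obtain ⟨M₀, hM₀, _, hW⟩ := weil_ex P z hz h0 h1 1 one_ne_zero
  have hall := all_sp P P.natDegree M₀ hW κ hκ (by linarith)
  have hw : ∀ X : ℕ, 0 ≤ 1 / (X : ℝ) ^ κ := fun X => by positivity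
  obtain ⟨zz, B₁, Y₀, hclose⟩ := close3 F C k hW0 (ε / 2) (by positivity)
  obtain ⟨ss, hss⟩ : ∃ ss : Finset (ℕ × ℤ), ss = ((range (zz + 4)).filter Nat.Prime) ×ˢ
    ((Icc (-(B₁ + 1 : ℤ)) (B₁ + 1)).filter (fun g => g ≠ 0)) := ⟨_, rfl⟩
  have hmem : ∀ (l : ℕ) (g : ℤ), l.Prime → l ≤ zz + 3 → g ≠ 0 → g.natAbs ≤ B₁ + 1 → (l, g) ∈ ss := by
    intro l g h2 h3 h4 h5
    rw [hss, mem_product, mem_filter, mem_filter, mem_range, mem_Icc]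
    exact ⟨⟨by omega, h2⟩, by omega, h4⟩
  have hQ2 := g_fin (Adm := AdmP P) (R := RP κ) (w := fun X => 1 / (X : ℝ) ^ κ) ss
    (fun i n _ => ∀ y : ℤ, n ≠ i.2 * y ^ i.1) hw (fun i hi => by
      rw [hss, mem_product, mem_filter, mem_filter] at hi
      exact g_cls F hM₀ hall i.1 hi.1.2 i.2 hi.2.2)
  have hQ1 := g_len F C W0 k hM₀ hall hC hW0 hk (ε / 2) (by positivity)
  obtain ⟨C₁, X₁, hC₁, hX₁, hJ⟩ := fewG_or _ _ (fun n x => (n = 0 ∨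
      |(Sc F C (W0 ⊔ Subgroup.zpowers (Uz n)) k x : ℝ) -
      (∑' e : ℕ, aT F C W0 k e) * (Nat.primeCounting x : ℝ)| ≤ ε / 2 * (Nat.primeCounting x : ℝ)) ∧
      ∀ i ∈ ss, ∀ y : ℤ, n ≠ i.2 * y ^ i.1) hQ1 hQ2 (fun n x h2 h3 => ⟨h2, h3⟩)
  obtain ⟨s₁, hs₁⟩ := hfew P P.natDegree M₀ hM₀ hW
  obtain ⟨A, hA⟩ := fam_size P
  obtain ⟨N₀, hN₀2, hN₀⟩ := choose_s K hK A s₁ Y₀
  rw [← hc₀] at hN₀
  refine ⟨C₁ + 1, X₁ + N₀ + 9, by linarith, ?_⟩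
  intro X N r H b c q hX hr hc hq hτ hωc hωq hrH hbH hcH hqH hHN E hEN hbad
  have hX1 : (1 : ℝ) ≤ X := by exact_mod_cast (by omega : 1 ≤ X)
  have hX0 : (0 : ℝ) < X := by linarith
  by_cases hE : E = ∅
  · rw [hE, card_empty]
    push_cast
    positivity
  obtain ⟨j₀, hj₀⟩ := Finset.nonempty_iff_ne_empty.2 hE
  have hXN : X ≤ N := by
    obtain ⟨x, hx1, hx2, _⟩ := hbad j₀ hj₀
    have hx : (1 : ℝ) ≤ x := by exact_mod_cast (by omega : 1 ≤ x)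
    have h2 : (x : ℝ) ≤ (x : ℝ) ^ (2 + κ) := by
      calc (x : ℝ) = (x : ℝ) ^ (1 : ℝ) := (Real.rpow_one _).symm
        _ ≤ _ := Real.rpow_le_rpow_of_exponent_le hx (by linarith)
    have h3 : (X : ℝ) ≤ N := by
      calc (X : ℝ) ≤ x := by exact_mod_cast hx1
        _ ≤ _ := h2.trans hx2
    exact_mod_cast h3
  have hXNr : (X : ℝ) ≤ N := by exact_mod_cast hXN
  obtain ⟨s, hsS, hsY, hslog, hs64, hsN, hsc, hsH⟩ := hN₀ N (by omega)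
  obtain ⟨q₁, hq₁, hperf⟩ := hs₁ s hsS
  have hXc : (X : ℝ) ^ c₀ ≤ s := (Real.rpow_le_rpow hX0.le hXNr hc0.le).trans hsc
  have hXκ : (X : ℝ) ^ κ ≤ s := (Real.rpow_le_rpow_of_exponent_le hX1 hκc).trans hXc
  have hHs := hsH H hHN
  have hY1 : Y₀ ≤ q₁ := by
    have : (Y₀ : ℝ) ≤ q₁ := hslog.trans hq₁.le
    exact_mod_cast this
  obtain ⟨u, hu⟩ : ∃ u : ℕ → ℤ, u = fun j : ℕ => P.eval (c * (b + q * (j : ℤ)) ^ r) := ⟨_, rfl⟩
  obtain ⟨E₁, hE₁⟩ : ∃ E₁ : Finset ℕ, E₁ = E.filter (fun j => ∃ x : ℕ, X ≤ x ∧ RP κ x N ∧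
    ¬ ((u j = 0 ∨
      |(Sc F C (W0 ⊔ Subgroup.zpowers (Uz (u j))) k x : ℝ) -
      (∑' e : ℕ, aT F C W0 k e) * (Nat.primeCounting x : ℝ)| ≤ ε / 2 * (Nat.primeCounting x : ℝ)) ∧
      ∀ i ∈ ss, ∀ y : ℤ, u j ≠ i.2 * y ^ i.1)) := ⟨_, rfl⟩
  obtain ⟨E₂, hE₂⟩ : ∃ E₂ : Finset ℕ, E₂ = E.filter (fun j => ∃ l : ℕ, l.Prime ∧ l ≤ s ∧ l ≠ q₁ ∧
    ∃ y : ℤ, u j = y ^ l) := ⟨_, rfl⟩
  have hcover : E ⊆ E₁ ∪ E₂ := by
    intro j hj
    by_contra hcon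
    rw [mem_union, not_or] at hcon
    obtain ⟨hcon1, hcon2⟩ := hcon
    obtain ⟨x, hx1, hx2, hx3⟩ := hbad j hj
    rw [hE₁, mem_filter] at hcon1
    push Not at hcon1
    have h4 := hcon1 hj x hx1 hx2
    obtain ⟨h5, h6⟩ := h4
    rw [hE₂, mem_filter] at hcon2
    push Not at hcon2
    have hperf' := hcon2 hj
    have hsize : (u j).natAbs < 2 ^ (2 ^ (2 * H + Nat.log 2 N + A)) := by
      rw [hu]
      exact hA N r H j b c q (mem_range.1 (hEN hj)) hrH hbH hcH hqH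
    have hx3' : ¬ LL F C W0 k ε (u j) x := by rw [hu]; exact hx3
    obtain ⟨n, hn⟩ : ∃ n : ℤ, n = u j := ⟨_, rfl⟩
    rw [← hn] at h5 h6 hx3' hperf' hsize
    have hcl : ∀ (l : ℕ) (g : ℤ), l.Prime → l ≤ zz + 3 → g ≠ 0 → g.natAbs ≤ B₁ + 1 → ∀ y : ℤ, n ≠ g * y ^ l :=
      fun l g h7 h8 h9 h10 y => h6 (l, g) (hmem l g h7 h8 h9 h10) y
    have hn0 : n ≠ 0 := by
      have := hcl 2 1 Nat.prime_two (by omega) one_ne_zero (by simp) 0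
      simpa using this
    have e1 := hcl 2 1 Nat.prime_two (by omega) one_ne_zero (by simp) 1
    have e2 := hcl 2 (-1) Nat.prime_two (by omega) (by norm_num) (by simp) 1
    rw [one_pow, mul_one] at e1 e2
    have h7 := h5.resolve_left hn0
    have h8 : |(∑' e : ℕ, tW F C (W0 ⊔ Subgroup.zpowers (Uz n)) k e) - ∑' e : ℕ, aT F C W0 k e| ≤ ε / 2 := by
      refine hclose n s (2 * H + Nat.log 2 N + A) q₁ hn0 hsY hY1 hHs ?_ ?_ hsize (by omega)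
      · intro l hl hlz g hg hgB y
        exact hcl l g hl (by omega) hg (by omega) y
      · intro l hl hls hlq y
        exact hperf' l hl hls hlq y
    apply hx3'
    have hn1 : 1 < |n| := by
      rcases abs_cases n with h | h <;> omega
    refine ⟨hn1, ?_⟩
    have hπ : (0 : ℝ) ≤ (Nat.primeCounting x : ℝ) := Nat.cast_nonneg _
    have h9 : |((∑' e : ℕ, tW F C (W0 ⊔ Subgroup.zpowers (Uz n)) k e) - ∑' e : ℕ, aT F C W0 k e) *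
        (Nat.primeCounting x : ℝ)| ≤ ε / 2 * (Nat.primeCounting x : ℝ) := by
      rw [abs_mul, abs_of_nonneg hπ]
      exact mul_le_mul_of_nonneg_right h8 hπ
    rw [abs_le] at h7 h9 ⊢
    constructor
    · linarith [h7.1, h9.2]
    · linarith [h7.2, h9.1]
  have hcard1 : (E₁.card : ℝ) ≤ C₁ * (N * (1 / (X : ℝ) ^ κ)) := by
    refine hJ X N u (by omega) ⟨r, b, c, q, hr, hc, hq, ?_, ?_, ?_, hu⟩ E₁ ?_ ?_
    · exact hτ.trans (Real.rpow_le_rpow_of_exponent_le hX1 hc4)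
    · rw [Real.sqrt_eq_rpow]
      exact hωc.trans (Real.rpow_le_rpow_of_exponent_le hX1 (by linarith))
    · rw [Real.sqrt_eq_rpow]
      exact hωq.trans (Real.rpow_le_rpow_of_exponent_le hX1 (by linarith))
    · rw [hE₁]
      exact (filter_subset _ _).trans hEN
    · intro j hj
      rw [hE₁, mem_filter] at hj
      exact hj.2
  have hcard2 : (E₂.card : ℝ) ≤ N / (X : ℝ) ^ κ := by
    have h2 := hperf N r b c q hsN hr hc hq (hτ.trans hXc) (hωc.trans hXc) (hωq.trans hXc) E₂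
      (by rw [hE₂]; exact (filter_subset _ _).trans hEN) (fun j hj => by
        rw [hE₂, mem_filter, hu] at hj
        exact hj.2)
    refine h2.trans ?_
    have hs64' : (64 : ℝ) ≤ s := by exact_mod_cast hs64
    have hs0 : (0 : ℝ) < s := by linarith
    have hXκ0 : 0 < (X : ℝ) ^ κ := by positivity
    rw [div_le_div_iff₀ (by positivity) hXκ0]
    have hN0 : (0 : ℝ) ≤ N := Nat.cast_nonneg N
    have h3 : 64 * (X : ℝ) ^ κ ≤ (s : ℝ) ^ 15 := by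
      calc 64 * (X : ℝ) ^ κ ≤ s * s := mul_le_mul hs64' hXκ hXκ0.le hs0.le
        _ = (s : ℝ) ^ 2 := by ring
        _ ≤ _ := pow_le_pow_right₀ (by linarith) (by norm_num)
    calc 64 * (N : ℝ) * (X : ℝ) ^ κ = N * (64 * (X : ℝ) ^ κ) := by ring
      _ ≤ N * (s : ℝ) ^ 15 := mul_le_mul_of_nonneg_left h3 hN0
  have hfinal : (E.card : ℝ) ≤ E₁.card + E₂.card := by
    exact_mod_cast (card_le_card hcover).trans (card_union_le _ _)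
  calc (E.card : ℝ) ≤ E₁.card + E₂.card := hfinal
    _ ≤ C₁ * (N * (1 / (X : ℝ) ^ κ)) + N / (X : ℝ) ^ κ := add_le_add hcard1 hcard2
    _ = (C₁ + 1) * (N / (X : ℝ) ^ κ) := by ring

end Pool.Agent.KS6_33.PG
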