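import Pool.Agent.KS6_33.PG.PE

/-! # The exceptions among the primes -/

set_option autoImplicit false

namespace Pool.Agent.KS6_33.PG

open Finset Filter Topology Pool.Agent.KS6_33.EX Pool.Agent.KS6_33.SP Pool.Agent.H730R2.AA Pool.Agent.R318.PR
  Pool.Agent.R459.Eq
open Pool.Agent.H730R2.AA.Grid

/-- the exceptions are negligible among the primes -/
lemma primes_of_pg (c₀ κ : ℝ) (hκ : 0 < κ) (hκc : κ ≤ c₀) (B : ℝ) (X₀ : ℕ) (hB : 0 < B) (ω : ℝ) (b : ℕ → ℕ)
    (good : ℕ → Prop) (hgood : ∀ᶠ N : ℕ in atTop, good N)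
    (h : ∀ X N : ℕ, X₀ ≤ X → good N → (Real.log N) ^ 2 ≤ (X : ℝ) ^ c₀ → ω ≤ (X : ℝ) ^ c₀ →
      (∀ x : ℕ, (Real.log N) ^ (2 / κ) ≤ x → X ≤ x) → (b N : ℝ) ≤ B * (N / (X : ℝ) ^ κ)) :
    Tendsto (fun N : ℕ => (b N : ℝ) / Nat.primeCounting N) atTop (𝓝 0) := by
  have hc0 : 0 < c₀ := hκ.trans_le hκc
  have hbound : ∀ᶠ N : ℕ in atTop, (b N : ℝ) / Nat.primeCounting N ≤ 4 * B * (1 / Real.log N) := by
    have hlog : Tendsto (fun N : ℕ => (Real.log N) ^ (2 / κ)) atTop atTop :=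
      (tendsto_rpow_atTop (by positivity)).comp log_atTop
    have hlog2 : Tendsto (fun N : ℕ => ((Real.log N) ^ (2 / κ)) ^ c₀) atTop atTop :=
      (tendsto_rpow_atTop hc0).comp hlog
    filter_upwards [hgood, hlog.eventually_ge_atTop (X₀ : ℝ), hlog2.eventually_ge_atTop ω,
      log_atTop.eventually_ge_atTop (1 : ℝ), eventually_ge_atTop 4] with N hgN hK1 hK2 hK3 hK4
    obtain ⟨X, hX⟩ : ∃ X : ℕ, X = ⌈(Real.log N) ^ (2 / κ)⌉₊ := ⟨_, rfl⟩
    have hXge : (Real.log N) ^ (2 / κ) ≤ X := by rw [hX]; exact Nat.le_ceil _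
    have hXX : X₀ ≤ X := by
      have : (X₀ : ℝ) ≤ X := hK1.trans hXge
      exact_mod_cast this
    have hL0 : 0 < Real.log N := by linarith
    have hN0 : (0 : ℝ) < N := by exact_mod_cast (by omega : 0 < N)
    have hXc : ((Real.log N) ^ (2 / κ)) ^ c₀ ≤ (X : ℝ) ^ c₀ :=
      Real.rpow_le_rpow (by positivity) hXge hc0.le
    have htX : (Real.log N) ^ 2 ≤ (X : ℝ) ^ c₀ := by
      refine le_trans ?_ hXc
      rw [← Real.rpow_mul hL0.le, ← Real.rpow_natCast]
      apply Real.rpow_le_rpow_of_exponent_le hK3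
      rw [div_mul_eq_mul_div, le_div_iff₀ hκ]
      push_cast
      linarith
    have h2 := h X N hXX hgN htX (hK2.trans hXc) (fun x hx => by rw [hX]; exact Nat.ceil_le.2 hx)
    obtain ⟨hpi, _, hpi2⟩ := pi_lower' N hK4
    have hXκ : (Real.log N) ^ 2 ≤ (X : ℝ) ^ κ := by
      calc (Real.log N) ^ 2 = (Real.log N) ^ ((2 : ℕ) : ℝ) := (Real.rpow_natCast _ _).symm
        _ = ((Real.log N) ^ (2 / κ)) ^ κ := by
            rw [← Real.rpow_mul hL0.le]
            congr 1
            push_cast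
            field_simp
        _ ≤ _ := Real.rpow_le_rpow (by positivity) hXge hκ.le
    have h3 : (b N : ℝ) ≤ B * (N / (Real.log N) ^ 2) := by
      refine h2.trans ?_
      apply mul_le_mul_of_nonneg_left _ hB.le
      exact div_le_div_of_nonneg_left hN0.le (by positivity) hXκ
    calc (b N : ℝ) / Nat.primeCounting N = (b N : ℝ) * (1 / Nat.primeCounting N) := by ring
      _ ≤ (B * (N / (Real.log N) ^ 2)) * (4 * Real.log N / N) :=
          mul_le_mul h3 hpi2 (by positivity) (by positivity)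
      _ = _ := by field_simp
  have hlim : Tendsto (fun N : ℕ => 4 * B * (1 / Real.log N)) atTop (𝓝 0) := by
    have h2 : Tendsto (fun N : ℕ => 1 / Real.log N) atTop (𝓝 0) := by
      simp only [one_div]
      exact tendsto_inv_atTop_zero.comp log_atTop
    have := h2.const_mul (4 * B)
    rwa [mul_zero] at this
  exact squeeze_zero' (Eventually.of_forall fun N => by positivity) hbound hlim

end Pool.Agent.KS6_33.PG
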